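import Pool.Agent.Helper3.WCNum

namespace Pool.Agent.Helper3.WC

open Finset Filter Topology

/-- A graph with an odd cycle has at least three edges. -/
lemma three_le_card_of_hasOddCycle {V : Type*} {C : Finset (Sym2 V)}
    (h : HasOddCycle (clientGraph C)) : 3 ≤ C.card := by
  classical
  obtain ⟨u, p, hp, _⟩ := h
  have h1 : p.edges.toFinset ⊆ C := by
    intro e he
    rw [List.mem_toFinset] at he
    have h2 := SimpleGraph.Walk.edges_subset_edgeSet p he
    rw [clientGraph, SimpleGraph.edgeSet_fromEdgeSet] at h2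
    exact_mod_cast h2.1
  have h3 := card_le_card h1
  rw [List.toFinset_card_of_nodup hp.edges_nodup, SimpleGraph.Walk.length_edges] at h3
  exact hp.three_le_length.trans h3

/-- If Waiter wins from the initial position, the bias is smaller than the size of the board. -/
lemma lt_card_of_waiterWinsFrom {V : Type*} [DecidableEq V] {q : ℕ} {U : Finset (Sym2 V)}
    (h : WaiterWinsFrom q U ∅) : q + 1 ≤ U.card := by
  cases h with
  | finished _ h =>
    have := three_le_card_of_hasOddCycle h
    simp at this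
  | lastRound _ _ hne hlt hall =>
    exfalso
    obtain ⟨e, he⟩ := hne
    have h1 := hall e he
    cases h1 with
    | finished _ h =>
      have := three_le_card_of_hasOddCycle h
      simp at this
    | lastRound _ _ hne _ _ => simp at hne
    | round _ _ O hO hc _ =>
      have := card_le_card hO
      simp at this
      rw [this] at hc
      simp at hc
  | round _ _ O hO hc _ =>
    rw [← hc]
    exact card_le_card hO

/-- The set of biases for which Waiter wins is bounded. -/
lemma bddAbove_waiterWins (n : ℕ) : BddAbove {q : ℕ | 1 ≤ q ∧ WaiterWins n q} := by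
  refine ⟨(⊤ : SimpleGraph (Fin n)).edgeFinset.card, ?_⟩
  rintro q ⟨_, hq⟩
  have := lt_card_of_waiterWinsFrom hq
  omega

theorem eventually_le_thresholdBias :
    ∃ ε : ℝ, 0 < ε ∧ ∀ᶠ n : ℕ in atTop, (1 + ε) * n ≤ (thresholdBias n : ℝ) := by
  obtain ⟨ε, hε, h⟩ := waiter_wins
  refine ⟨ε, hε, ?_⟩
  filter_upwards [h, eventually_ge_atTop 1] with n hn hn1
  have hn1' : (1 : ℝ) ≤ n := by exact_mod_cast hn1
  have h1 : 1 ≤ ⌈(1 + ε) * (n : ℝ)⌉₊ := by
    rw [Nat.one_le_ceil_iff]
    positivity
  have h2 : ⌈(1 + ε) * (n : ℝ)⌉₊ ≤ thresholdBias n := le_csSup (bddAbove_waiterWins n) ⟨h1, hn⟩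
  calc (1 + ε) * n ≤ (⌈(1 + ε) * (n : ℝ)⌉₊ : ℝ) := Nat.le_ceil _
    _ ≤ thresholdBias n := by exact_mod_cast h2

end Pool.Agent.Helper3.WC
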