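import Pool.Agent.Helper3.WCFinal

namespace Pool.Agent.Helper3.WC

open Finset

set_option linter.unusedSectionVars false
set_option linter.unusedVariables false

lemma chain_of_lt {a b : ℕ} : ∀ (l : List ℕ), l.Nodup → (∀ x ∈ l, x < b) → l.IsChain (Rel a b) := by
  intro l
  induction l with
  | nil => intro _ _; exact List.isChain_nil
  | cons x l ih =>
    intro hnd hlt
    cases l with
    | nil => exact List.isChain_singleton x
    | cons y l =>
      rw [List.isChain_cons_cons]
      refine ⟨?_, ih (List.nodup_cons.1 hnd).2 (fun z hz => hlt z (List.mem_cons_of_mem _ hz))⟩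
      have hxy : x ≠ y := by
        rintro rfl
        exact (List.nodup_cons.1 hnd).1 List.mem_cons_self
      have h1 := hlt x List.mem_cons_self
      have h2 := hlt y (List.mem_cons_of_mem _ List.mem_cons_self)
      unfold Rel Bef
      omega

/-- The label list attached to an injection. -/
def embList {k b : ℕ} (f : Fin k ↪ Fin b) : List ℕ := List.ofFn (fun i => (f i : ℕ)) ++ [b]

lemma embList_mem {L K b r : ℕ} (hb : b < L) (hr : Even r) (hrK : r + 2 ≤ K)
    (f : Fin (r + 2) ↪ Fin b) (hf : f (Fin.last (r + 1)) < f 0) :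
    embList f ∈ goodLists L K (f 0) b := by
  classical
  have hlen : (embList f).length = r + 3 := by simp [embList]
  have hnd1 : (List.ofFn (fun i => (f i : ℕ))).Nodup := by
    rw [List.nodup_ofFn]
    intro x y hxy
    exact f.injective (Fin.ext hxy)
  have hlt : ∀ x ∈ List.ofFn (fun i => (f i : ℕ)), x < b := by
    intro x hx
    rw [List.mem_ofFn] at hx
    obtain ⟨i, rfl⟩ := hx
    exact (f i).2
  have hne : List.ofFn (fun i => (f i : ℕ)) ≠ [] := by
    intro h
    have := congrArg List.length h
    simp at this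
  have hhead : (List.ofFn (fun i => (f i : ℕ))).head? = some (f 0 : ℕ) := by
    rw [List.ofFn_succ]
    rfl
  have hlast : (List.ofFn (fun i => (f i : ℕ))).getLast? = some (f (Fin.last (r + 1)) : ℕ) := by
    rw [List.getLast?_eq_getLast_of_ne_nil hne, List.getLast_ofFn_succ]
  rw [goodLists, mem_filter, mem_lab]
  refine ⟨⟨?_, ?_, ?_⟩, ?_, ?_, ?_, ?_, ?_⟩
  · rw [embList, List.nodup_append]
    refine ⟨hnd1, List.nodup_singleton b, ?_⟩
    intro x hx y hy
    rw [List.mem_singleton] at hy
    have := hlt x hx
    omega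
  · intro x hx
    rw [embList, List.mem_append, List.mem_singleton] at hx
    rcases hx with hx | rfl
    · exact (hlt x hx).trans hb
    · exact hb
  · omega
  · rw [embList, List.head?_append_of_ne_nil _ hne]
    exact hhead
  · rw [embList, List.getLast?_append]
    simp
  · rw [hlen]
    obtain ⟨t, ht⟩ := hr
    exact ⟨t + 1, by omega⟩
  · omega
  · rw [embList, List.isChain_append]
    refine ⟨chain_of_lt _ hnd1 hlt, List.isChain_singleton b, ?_⟩
    intro x hx y hy
    rw [hlast] at hx
    simp only [Option.mem_def, Option.some.injEq, List.head?_cons] at hx hy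
    subst hx hy
    left
    refine ⟨(f (Fin.last (r + 1))).2, Or.inr ⟨rfl, hf⟩⟩

lemma embList_injective {k b : ℕ} : Function.Injective (embList : (Fin k ↪ Fin b) → List ℕ) := by
  intro f g h
  rw [embList, embList, List.append_cancel_right_eq] at h
  have := List.ofFn_injective h
  ext i
  exact congrFun this i

/-- Half of all injections have `f last < f 0`. -/
lemma two_mul_card_emb {r b : ℕ} :
    2 * (univ.filter (fun f : Fin (r + 2) ↪ Fin b => f (Fin.last (r + 1)) < f 0)).card =
      b.descFactorial (r + 2) := by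
  classical
  have h1 : (univ.filter (fun f : Fin (r + 2) ↪ Fin b => f (Fin.last (r + 1)) < f 0)).card =
      (univ.filter (fun f : Fin (r + 2) ↪ Fin b => ¬ f (Fin.last (r + 1)) < f 0)).card := by
    refine card_bij' (fun f _ => (Fin.revPerm.toEmbedding).trans f)
      (fun f _ => (Fin.revPerm.toEmbedding).trans f) ?_ ?_ ?_ ?_
    · intro f hf
      rw [mem_filter] at hf ⊢
      refine ⟨mem_univ _, ?_⟩
      simp only [Function.Embedding.trans_apply, Equiv.coe_toEmbedding, Fin.revPerm_apply,
        Fin.rev_last, Fin.rev_zero, not_lt]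
      exact hf.2.le
    · intro f hf
      rw [mem_filter] at hf ⊢
      refine ⟨mem_univ _, ?_⟩
      simp only [Function.Embedding.trans_apply, Equiv.coe_toEmbedding, Fin.revPerm_apply,
        Fin.rev_last, Fin.rev_zero]
      have h2 := hf.2
      rw [not_lt] at h2
      refine lt_of_le_of_ne h2 ?_
      intro h3
      have := f.injective h3
      have h4 := congrArg Fin.val this
      simp at h4
    · intro f _
      ext i
      simp
    · intro f _
      ext i
      simp
  have h2 := card_filter_add_card_filter_not (s := (univ : Finset (Fin (r + 2) ↪ Fin b)))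
    (fun f => f (Fin.last (r + 1)) < f 0)
  rw [card_univ, Fintype.card_embedding_eq, Fintype.card_fin, Fintype.card_fin] at h2
  omega

open Classical in
/-- All counted label lists ending in `b`. -/
noncomputable def allLists (L K b : ℕ) : Finset (List ℕ) :=
  (range b).biUnion (fun a => goodLists L K a b)

lemma sum_allLists (L K b : ℕ) (F : List ℕ → ℝ) :
    ∑ a ∈ range b, ∑ s ∈ goodLists L K a b, F s = ∑ s ∈ allLists L K b, F s := by
  classical
  rw [allLists, sum_biUnion]
  intro a _ a' _ haa'
  rw [Function.onFun, disjoint_left]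
  intro s hs hs'
  rw [goodLists, mem_filter] at hs hs'
  apply haa'
  have := hs.2.1.symm.trans hs'.2.1
  exact Option.some_injective _ this

lemma card_allLists {L K b r : ℕ} (hb : b < L) (hr : Even r) (hrK : r + 2 ≤ K) :
    b.descFactorial (r + 2) ≤
      2 * ((allLists L K b).filter (fun s => s.length = r + 3)).card := by
  classical
  rw [← two_mul_card_emb]
  apply Nat.mul_le_mul_left
  rw [← card_image_of_injective _ (embList_injective (k := r + 2) (b := b))]
  apply card_le_card
  intro s hs
  rw [mem_image] at hs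
  obtain ⟨f, hf, rfl⟩ := hs
  rw [mem_filter] at hf
  rw [mem_filter, allLists, mem_biUnion]
  refine ⟨⟨f 0, ?_, embList_mem hb hr hrK f hf.2⟩, ?_⟩
  · rw [mem_range]
    exact (f 0).2
  · simp [embList]

lemma sum_descFactorial (k L : ℕ) :
    (k + 1) * ∑ b ∈ range L, b.descFactorial k = L.descFactorial (k + 1) := by
  induction L with
  | zero => simp
  | succ L ih =>
    rw [sum_range_succ, mul_add, ih, Nat.succ_descFactorial_succ, Nat.descFactorial_succ]
    rcases le_or_gt k L with h | h
    · have : L - k + (k + 1) = L + 1 := by omega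
      rw [← this]
      ring
    · rw [Nat.descFactorial_of_lt h]
      simp

/-- Lower bound for the total number of bad pairs. -/
lemma total_ge {L J m : ℕ} {θ K₀ : ℝ} (hlb : ∀ k, k ≤ 2 * J → 0 ≤ lb m θ K₀ k) :
    ∑ j ∈ range J, (L.descFactorial (2 * j + 3) : ℝ) / (2 * (2 * j + 3)) *
        lb m θ K₀ (2 * j + 2) ≤
      ∑ b ∈ range L, ∑ a ∈ range b, wt L (2 * J) m θ K₀ a b := by
  classical
  have h1 : ∀ b ∈ range L, ∑ j ∈ range J, (b.descFactorial (2 * j + 2) : ℝ) / 2 *
      lb m θ K₀ (2 * j + 2) ≤ ∑ a ∈ range b, wt L (2 * J) m θ K₀ a b := by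
    intro b hb
    rw [mem_range] at hb
    have h2 : ∑ a ∈ range b, wt L (2 * J) m θ K₀ a b =
        ∑ s ∈ allLists L (2 * J) b, lb m θ K₀ (s.length - 1) := by
      rw [← sum_allLists]
      rfl
    have hmaps : ∀ s ∈ allLists L (2 * J) b, (s.length - 3) / 2 ∈ range J := by
      intro s hs
      rw [allLists, mem_biUnion] at hs
      obtain ⟨a, _, hs⟩ := hs
      rw [goodLists, mem_filter, mem_lab] at hs
      rw [mem_range]
      have h3 := hs.1.2.2
      obtain ⟨t, ht⟩ := hs.2.2.2.1
      have h4 := hs.2.2.2.2.1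
      omega
    rw [h2, ← sum_fiberwise_of_maps_to hmaps]
    apply sum_le_sum
    intro j hj
    rw [mem_range] at hj
    have h3 : ∀ s ∈ (allLists L (2 * J) b).filter (fun s => (s.length - 3) / 2 = j),
        lb m θ K₀ (s.length - 1) = lb m θ K₀ (2 * j + 2) := by
      intro s hs
      rw [mem_filter, allLists, mem_biUnion] at hs
      obtain ⟨⟨a, _, hs⟩, hsj⟩ := hs
      rw [goodLists, mem_filter, mem_lab] at hs
      obtain ⟨t, ht⟩ := hs.2.2.2.1
      have h4 := hs.2.2.2.2.1
      congr 1
      omega
    rw [sum_congr rfl h3, sum_const, nsmul_eq_mul]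
    apply mul_le_mul_of_nonneg_right _ (hlb _ (by omega))
    rw [div_le_iff₀ (by norm_num : (0 : ℝ) < 2)]
    have h4 := card_allLists (L := L) (K := 2 * J) (b := b) (r := 2 * j) hb ⟨j, by ring⟩ (by omega)
    have h5 : ((allLists L (2 * J) b).filter (fun s => s.length = 2 * j + 3)).card ≤
        ((allLists L (2 * J) b).filter (fun s => (s.length - 3) / 2 = j)).card := by
      apply card_le_card
      intro s hs
      rw [mem_filter] at hs ⊢
      refine ⟨hs.1, ?_⟩
      rw [hs.2]
      omega
    have h6 : b.descFactorial (2 * j + 2) ≤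
        ((allLists L (2 * J) b).filter (fun s => (s.length - 3) / 2 = j)).card * 2 := by
      omega
    exact_mod_cast h6
  refine le_trans (le_of_eq ?_) (sum_le_sum h1)
  rw [sum_comm]
  apply sum_congr rfl
  intro j _
  rw [← sum_mul, ← sum_div]
  congr 1
  have h2 := sum_descFactorial (2 * j + 2) L
  have h3 : ((2 * j + 3 : ℕ) : ℝ) * ∑ b ∈ range L, (b.descFactorial (2 * j + 2) : ℝ) =
      (L.descFactorial (2 * j + 3) : ℝ) := by
    exact_mod_cast h2
  push_cast at h3
  rw [← h3]
  have h4 : (2 * (j : ℝ) + 3) ≠ 0 := by positivity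
  field_simp

end Pool.Agent.Helper3.WC
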