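import Mathlib

/-!
# The Waiter-Client odd cycle game: definitions

A position of the `(1:q)` game is a pair `(U, C)`, where `U` is the set of edges not yet claimed
and `C` is the set of edges claimed by Client.
-/

namespace Pool.Agent.Helper3.WC

/-- The graph formed by the edges in `C`. -/
def clientGraph {V : Type*} (C : Finset (Sym2 V)) : SimpleGraph V :=
  SimpleGraph.fromEdgeSet (C : Set (Sym2 V))

/-- The graph `G` contains all edges of some odd cycle. -/
def HasOddCycle {V : Type*} (G : SimpleGraph V) : Prop :=
  ∃ (u : V) (p : G.Walk u u), p.IsCycle ∧ Odd p.length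

/-- `WaiterWinsFrom q U C`: Waiter has a winning strategy in the rest of the `(1:q)` odd cycle
game when `U` is the set of unclaimed edges and `C` is the set of edges claimed by Client.
* If no unclaimed edge is left, the game is over, and Waiter has won iff Client's graph contains
  an odd cycle.
* If at least one but fewer than `q + 1` unclaimed edges are left, Waiter offers all of them and
  Client claims one of them, whichever he likes; the game is over after that.
* Otherwise Waiter picks `q + 1` unclaimed edges `O` and Client claims one edge `e` of `O`,
  whichever he likes; Waiter claims the others. -/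
inductive WaiterWinsFrom {V : Type*} [DecidableEq V] (q : ℕ) :
    Finset (Sym2 V) → Finset (Sym2 V) → Prop
  | finished (C : Finset (Sym2 V)) :
      HasOddCycle (clientGraph C) → WaiterWinsFrom q ∅ C
  | lastRound (U C : Finset (Sym2 V)) :
      U.Nonempty → U.card < q + 1 →
      (∀ e ∈ U, WaiterWinsFrom q ∅ (insert e C)) → WaiterWinsFrom q U C
  | round (U C O : Finset (Sym2 V)) :
      O ⊆ U → O.card = q + 1 →
      (∀ e ∈ O, WaiterWinsFrom q (U \ O) (insert e C)) → WaiterWinsFrom q U C

/-- Waiter has a winning strategy in the `(1:q)` Waiter-Client odd cycle game on `K_n`. -/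
def WaiterWins (n q : ℕ) : Prop :=
  WaiterWinsFrom q (⊤ : SimpleGraph (Fin n)).edgeFinset ∅

/-- The threshold bias `b_wc(OC_n)`: the largest `q ≥ 1` for which Waiter has a winning strategy
in the `(1:q)` odd cycle game on `K_n`. -/
noncomputable def thresholdBias (n : ℕ) : ℕ := sSup {q : ℕ | 1 ≤ q ∧ WaiterWins n q}

end Pool.Agent.Helper3.WC
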