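import Pool.Agent.Helper3.WCStep

namespace Pool.Agent.Helper3.WC

open Finset

set_option linter.unusedSectionVars false
set_option linter.unusedVariables false

variable {V : Type*} [DecidableEq V] [Fintype V]

/-- What is achieved by processing the pair of blocks `i, j`. -/
def FamPost (Q : ℕ) (blk : V → ℕ) (L R i j : ℕ) (η K₀ : ℝ) {ι : Type*} (I : Finset ι)
    (E : ι → V → Prop) [∀ s, DecidablePred (E s)] (U C : Finset (Sym2 V))
    (U' C' : Finset (Sym2 V)) : Prop :=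
  ∃ M : Finset (V × V), M ⊆ Vb blk i ×ˢ Vb blk j ∧ IsMat M ∧ C' = C ∪ toEdges M ∧ U' ⊆ U ∧
    (∀ e ∈ U, e ∉ U' → ∃ u v, blk u = i ∧ blk v = j ∧ e = s(u, v) ∧ ¬ Near C (2 * R) u v) ∧
    Inv C' blk L R ∧
    (∀ s ∈ I, ∀ t ∈ I, (1 - 3 * η) * (((Vb blk i).filter (E s)).card *
      ((Vb blk j).filter (E t)).card / Q) - K₀ ≤
      ((M.filter (fun p => E s p.1 ∧ E t p.2)).card : ℝ))

lemma famstep {Q L R : ℕ} {blk : V → ℕ} {i j : ℕ} (hi : i < L) (hj : j < L) (hij : i ≠ j)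
    (hL : 0 < L) (hQ : 0 < Q)
    (hVi : ((Vb blk i).card : ℝ) ≤ (1 / L : ℝ) * Q) (hVj : ((Vb blk j).card : ℝ) ≤ (1 / L : ℝ) * Q)
    {U C : Finset (Sym2 V)} (hI : Inv C blk L R)
    (hU : ∀ u v, blk u = i → blk v = j → s(u, v) ∈ U)
    (hC : ∀ u v, blk u = i → blk v = j → s(u, v) ∉ C)
    {ι : Type*} [DecidableEq ι] (I : Finset ι) (E : ι → V → Prop) [∀ s, DecidablePred (E s)] :
    Force Q (FamPost Q blk L R i j (1 / L : ℝ)
      ((2 : ℝ) ^ I.card * 2 ^ I.card * ((L + 1) ^ (2 * R) + 1)) I E U C) U C := by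
  classical
  set η : ℝ := 1 / L with hη
  have hL' : (1 : ℝ) ≤ L := by exact_mod_cast hL
  have hη0 : 0 ≤ η := by positivity
  have hη1 : η ≤ 1 := by
    rw [hη, div_le_one (by linarith)]
    exact hL'
  have hQ' : (0 : ℝ) < Q := by exact_mod_cast hQ
  set D : ℕ := (L + 1) ^ (2 * R) with hD
  set f : V → Finset ι := fun u => I.filter (fun s => E s u) with hf
  set α : Finset ι → ℕ := fun σ => ((Vb blk i).filter (fun u => f u = σ)).card with hα
  set β : Finset ι → ℕ := fun σ => ((Vb blk j).filter (fun u => f u = σ)).card with hβ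
  set r : Finset ι → Finset ι → ℕ := fun σ ρ => ⌊(1 - 3 * η) * (α σ * β ρ / Q) - D⌋₊ with hr
  set Tf := (Vb blk i).image f with hTf
  set Tg := (Vb blk j).image f with hTg
  have hrle : ∀ σ ρ, (r σ ρ : ℝ) ≤ α σ * β ρ / Q := by
    intro σ ρ
    have h0 : (0 : ℝ) ≤ (α σ : ℝ) * β ρ / Q := by positivity
    have h1 : (1 - 3 * η) * ((α σ : ℝ) * β ρ / Q) ≤ 1 * ((α σ : ℝ) * β ρ / Q) :=
      mul_le_mul_of_nonneg_right (by linarith) h0
    have h2 : (0 : ℝ) ≤ D := by positivity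
    have h3 : (r σ ρ : ℝ) = ⌊(1 - 3 * η) * ((α σ : ℝ) * β ρ / Q) - D⌋₊ := rfl
    rw [h3]
    rcases le_total 0 ((1 - 3 * η) * ((α σ : ℝ) * β ρ / Q) - D) with h4 | h4
    · have := Nat.floor_le h4
      linarith
    · rw [Nat.floor_of_nonpos h4]
      simpa using h0
  have hsumβ : ∑ ρ ∈ Tg, β ρ = (Vb blk j).card := by
    rw [hβ, hTg]
    exact (card_eq_sum_card_image f (Vb blk j)).symm
  have hsumα : ∑ σ ∈ Tf, α σ = (Vb blk i).card := by
    rw [hα, hTf]
    exact (card_eq_sum_card_image f (Vb blk i)).symm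
  have hαle : ∀ σ, (α σ : ℝ) ≤ η * Q := fun σ =>
    (by exact_mod_cast card_filter_le _ _ : (α σ : ℝ) ≤ (Vb blk i).card).trans hVi
  have hβle : ∀ σ, (β σ : ℝ) ≤ η * Q := fun σ =>
    (by exact_mod_cast card_filter_le _ _ : (β σ : ℝ) ≤ (Vb blk j).card).trans hVj
  have hrow : ∀ σ, ((∑ ρ ∈ Tg, r σ ρ : ℕ) : ℝ) ≤ η * α σ := by
    intro σ
    push_cast
    calc ∑ ρ ∈ Tg, (r σ ρ : ℝ) ≤ ∑ ρ ∈ Tg, (α σ : ℝ) / Q * β ρ := by
          apply sum_le_sum
          intro ρ _
          refine (hrle σ ρ).trans (le_of_eq ?_)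
          ring
      _ = (α σ : ℝ) / Q * (Vb blk j).card := by
          rw [← mul_sum]
          congr 1
          exact_mod_cast hsumβ
      _ ≤ (α σ : ℝ) / Q * (η * Q) := by
          apply mul_le_mul_of_nonneg_left hVj (by positivity)
      _ = η * α σ := by field_simp
  have hcol : ∀ ρ, ((∑ σ ∈ Tf, r σ ρ : ℕ) : ℝ) ≤ η * β ρ := by
    intro ρ
    push_cast
    calc ∑ σ ∈ Tf, (r σ ρ : ℝ) ≤ ∑ σ ∈ Tf, (β ρ : ℝ) / Q * α σ := by
          apply sum_le_sum
          intro σ _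
          refine (hrle σ ρ).trans (le_of_eq ?_)
          ring
      _ = (β ρ : ℝ) / Q * (Vb blk i).card := by
          rw [← mul_sum]
          congr 1
          exact_mod_cast hsumα
      _ ≤ (β ρ : ℝ) / Q * (η * Q) := by
          apply mul_le_mul_of_nonneg_left hVi (by positivity)
      _ = η * β ρ := by field_simp
  have hgrp : ∀ σ ∈ Tf, ∀ ρ ∈ Tg, 1 ≤ r σ ρ →
      ∃ a : ℕ, r σ ρ * a ≤ ((Vb blk i).filter (fun u => f u = σ)).card - ∑ ρ' ∈ Tg, r σ ρ' ∧
        Q ≤ a * (((Vb blk j).filter (fun v => f v = ρ)).card - ∑ σ' ∈ Tf, r σ' ρ - D) := by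
    intro σ _ ρ _ h1
    refine exists_group hη0 hη1 (hαle σ) (hβle ρ) (hrow σ) (hcol ρ) h1 hQ ?_
    have h2 : r σ ρ ≠ 0 := by omega
    have h3 : (0 : ℝ) ≤ (1 - 3 * η) * (α σ * β ρ / Q) - D := by
      by_contra hcon
      push Not at hcon
      apply h2
      exact Nat.floor_of_nonpos hcon.le
    exact Nat.floor_le h3
  refine (step (Q := Q) (L := L) (R := R) hi hj hij hI hU hC f f r hgrp (Tf ×ˢ Tg)
    Subset.rfl).mono ?_
  rintro U' C' ⟨M, hM, hMm, hC', hU', hlost, hInv, hMS, hcnt⟩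
  refine ⟨M, hM, hMm, hC', hU', ?_, hInv, ?_⟩
  · intro e he he'
    obtain ⟨u, v, h1, h2, _, h4, h5⟩ := hlost e he he'
    exact ⟨u, v, h1, h2, h4, h5⟩
  · intro s hs t ht
    have hEs : ∀ u, E s u ↔ s ∈ f u := by
      intro u
      simp [hf, hs]
    have hEt : ∀ u, E t u ↔ t ∈ f u := by
      intro u
      simp [hf, ht]
    -- decompose into classes
    have h1 : ((Vb blk i).filter (E s)).card = ∑ σ ∈ Tf.filter (fun σ => s ∈ σ), α σ := by
      rw [card_eq_sum_card_fiberwise (f := f) (t := Tf.filter (fun σ => s ∈ σ))]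
      · apply sum_congr rfl
        intro σ hσ
        rw [hα, filter_filter]
        congr 1
        apply filter_congr
        intro u _
        rw [hEs]
        constructor
        · exact fun h => h.2
        · rintro rfl
          exact ⟨(mem_filter.1 hσ).2, rfl⟩
      · intro u hu
        have hu' := mem_filter.1 (mem_coe.1 hu)
        exact mem_coe.2 (mem_filter.2 ⟨mem_image_of_mem f hu'.1, (hEs u).1 hu'.2⟩)
    have h2 : ((Vb blk j).filter (E t)).card = ∑ ρ ∈ Tg.filter (fun ρ => t ∈ ρ), β ρ := by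
      rw [card_eq_sum_card_fiberwise (f := f) (t := Tg.filter (fun σ => t ∈ σ))]
      · apply sum_congr rfl
        intro σ hσ
        rw [hβ, filter_filter]
        congr 1
        apply filter_congr
        intro u _
        rw [hEt]
        constructor
        · exact fun h => h.2
        · rintro rfl
          exact ⟨(mem_filter.1 hσ).2, rfl⟩
      · intro u hu
        have hu' := mem_filter.1 (mem_coe.1 hu)
        exact mem_coe.2 (mem_filter.2 ⟨mem_image_of_mem f hu'.1, (hEt u).1 hu'.2⟩)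
    have h3 : (M.filter (fun p => E s p.1 ∧ E t p.2)).card =
        ∑ q ∈ (Tf.filter (fun σ => s ∈ σ)) ×ˢ (Tg.filter (fun ρ => t ∈ ρ)), r q.1 q.2 := by
      rw [card_eq_sum_card_fiberwise (f := fun p : V × V => (f p.1, f p.2))
        (t := (Tf.filter (fun σ => s ∈ σ)) ×ˢ (Tg.filter (fun ρ => t ∈ ρ)))]
      · apply sum_congr rfl
        intro q hq
        rw [mem_product, mem_filter, mem_filter] at hq
        rw [← hcnt q.1 q.2 (mem_product.2 ⟨hq.1.1, hq.2.1⟩), filter_filter]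
        congr 1
        apply filter_congr
        intro p _
        rw [hEs, hEt]
        constructor
        · rintro ⟨_, h⟩
          rw [← h]
          exact ⟨rfl, rfl⟩
        · rintro ⟨h4, h5⟩
          rw [h4, h5]
          exact ⟨⟨hq.1.2, hq.2.2⟩, rfl⟩
      · intro p hp
        have hp' := mem_filter.1 (mem_coe.1 hp)
        have hpM := mem_product.1 (hM hp'.1)
        exact mem_coe.2 (mem_product.2
          ⟨mem_filter.2 ⟨mem_image_of_mem f hpM.1, (hEs _).1 hp'.2.1⟩,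
            mem_filter.2 ⟨mem_image_of_mem f hpM.2, (hEt _).1 hp'.2.2⟩⟩)
    have h4 : ∀ σ ρ, (1 - 3 * η) * ((α σ : ℝ) * β ρ / Q) - (D + 1) ≤ r σ ρ := by
      intro σ ρ
      have := (Nat.lt_floor_add_one ((1 - 3 * η) * ((α σ : ℝ) * β ρ / Q) - D)).le
      have h5 : (r σ ρ : ℝ) = ⌊(1 - 3 * η) * ((α σ : ℝ) * β ρ / Q) - D⌋₊ := rfl
      rw [h5]
      linarith
    have hTfc : (Tf.filter (fun σ => s ∈ σ)).card ≤ 2 ^ I.card := by
      refine (card_filter_le _ _).trans ?_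
      rw [← card_powerset]
      apply card_le_card
      intro σ hσ
      rw [hTf, mem_image] at hσ
      obtain ⟨u, _, rfl⟩ := hσ
      rw [mem_powerset]
      exact filter_subset _ _
    have hTgc : (Tg.filter (fun σ => t ∈ σ)).card ≤ 2 ^ I.card := by
      refine (card_filter_le _ _).trans ?_
      rw [← card_powerset]
      apply card_le_card
      intro σ hσ
      rw [hTg, mem_image] at hσ
      obtain ⟨u, _, rfl⟩ := hσ
      rw [mem_powerset]
      exact filter_subset _ _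
    rw [h1, h2, h3]
    push_cast
    have h5 : ∑ q ∈ (Tf.filter (fun σ => s ∈ σ)) ×ˢ (Tg.filter (fun ρ => t ∈ ρ)),
        ((1 - 3 * η) * ((α q.1 : ℝ) * β q.2 / Q) - (D + 1)) ≤
        ∑ q ∈ (Tf.filter (fun σ => s ∈ σ)) ×ˢ (Tg.filter (fun ρ => t ∈ ρ)), (r q.1 q.2 : ℝ) :=
      sum_le_sum fun q _ => h4 q.1 q.2
    refine le_trans ?_ h5
    rw [sum_sub_distrib, sum_const, card_product, nsmul_eq_mul]
    have h6 : ∑ q ∈ (Tf.filter (fun σ => s ∈ σ)) ×ˢ (Tg.filter (fun ρ => t ∈ ρ)),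
        (1 - 3 * η) * ((α q.1 : ℝ) * β q.2 / Q) =
        (1 - 3 * η) * ((∑ σ ∈ Tf.filter (fun σ => s ∈ σ), (α σ : ℝ)) *
          (∑ ρ ∈ Tg.filter (fun ρ => t ∈ ρ), (β ρ : ℝ)) / Q) := by
      rw [← mul_sum, sum_product, sum_mul_sum]
      congr 1
      rw [sum_div]
      apply sum_congr rfl
      intro σ _
      rw [sum_div]
    rw [h6]
    apply sub_le_sub_left
    have h7 : (((Tf.filter (fun σ => s ∈ σ)).card * (Tg.filter (fun ρ => t ∈ ρ)).card : ℕ) : ℝ) ≤
        (2 : ℝ) ^ I.card * 2 ^ I.card := by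
      have : (Tf.filter (fun σ => s ∈ σ)).card * (Tg.filter (fun ρ => t ∈ ρ)).card ≤
        2 ^ I.card * 2 ^ I.card := Nat.mul_le_mul hTfc hTgc
      exact_mod_cast this
    have h8 : ((D : ℝ) + 1) = ((L : ℝ) + 1) ^ (2 * R) + 1 := by
      rw [hD]
      push_cast
      ring
    rw [h8]
    apply mul_le_mul_of_nonneg_right h7 (by positivity)

end Pool.Agent.Helper3.WC
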