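import Pool.Agent.Helper3.WCMain2

namespace Pool.Agent.Helper3.WC

open Finset

set_option linter.unusedSectionVars false
set_option linter.unusedVariables false

variable {V : Type*} [DecidableEq V] [Fintype V]

lemma main_init {Q L K m : ℕ} {blk : V → ℕ} (hVb : ∀ i < L, (Vb blk i).card = m) (θ K₀ : ℝ) :
    Main blk L K m θ K₀ 0 0 (⊤ : SimpleGraph V).edgeFinset ∅ := by
  classical
  refine ⟨Inv.empty _ _ _, disjoint_empty_right _, ?_, ?_, ?_⟩
  · intro u v huv _ _
    refine ⟨?_, by simp⟩
    rw [SimpleGraph.mem_edgeFinset, SimpleGraph.mem_edgeSet, SimpleGraph.top_adj]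
    rintro rfl
    exact lt_irrefl _ huv
  · intro s hs hne hch
    rw [mem_lab] at hs
    match s, hne with
    | [i], _ =>
      have hi : i < L := hs.2.1 i (by simp)
      have : cnt blk (∅ : Finset (Sym2 V)) [i] = m := by
        rw [← hVb i hi, ← cnt_cons i []]
        apply congrArg card
        ext u
        simp
      rw [this]
      simp [lb]
    | i :: j :: s, _ =>
      rw [List.isChain_cons_cons] at hch
      exfalso
      rcases hch.1 with h | h <;> unfold Bef at h <;> omega
  · intro a b h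
    unfold Bef at h
    omega

lemma main_all {Q L K m : ℕ} {blk : V → ℕ} (hL : 3 ≤ L) (hQ : 0 < Q)
    (hVb : ∀ i < L, (Vb blk i).card = m) (hm : (m : ℝ) ≤ (1 / L : ℝ) * Q) {θ K₀ : ℝ}
    (hθ : θ = (1 - 3 * (1 / L : ℝ)) * m / Q)
    (hK₀ : K₀ = (2 : ℝ) ^ (lab L K).card * 2 ^ (lab L K).card * ((L + 1) ^ (2 * K) + 1)) :
    Force Q (Main blk L K m θ K₀ 0 L) (⊤ : SimpleGraph V).edgeFinset ∅ := by
  have key : ∀ j, j ≤ L → Force Q (Main blk L K m θ K₀ 0 j) (⊤ : SimpleGraph V).edgeFinset ∅ := by
    intro j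
    induction j with
    | zero => intro _; exact Force.here _ _ (main_init (Q := Q) hVb θ K₀)
    | succ j ih =>
      intro hj
      have inner : ∀ i, i ≤ j →
          Force Q (Main blk L K m θ K₀ i j) (⊤ : SimpleGraph V).edgeFinset ∅ := by
        intro i
        induction i with
        | zero => intro _; exact ih (by omega)
        | succ i ihi =>
          intro hi
          exact (ihi (by omega)).bind fun U' C' h' =>
            main_step hL hQ hVb hm (by omega) (by omega) hθ hK₀ h'
      refine (inner j le_rfl).mono ?_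
      intro U' C' h
      refine ⟨h.inv, h.dis, ?_, ?_, ?_⟩
      · intro u v huv hv hb
        exact h.fresh u v huv hv (fun h' => hb (bef_next.1 h'))
      · intro s hs hne hch
        apply h.many s hs hne
        have : Rel j j = Rel 0 (j + 1) := by
          funext a b
          simp only [Rel, bef_next']
        rw [this]
        exact hch
      · intro a b hab hb
        exact h.bads a b (bef_next.2 hab) hb
  exact key L le_rfl

/-- Claiming a bad pair closes an odd cycle. -/
lemma odd_cycle_of_bad {U C : Finset (Sym2 V)} {blk : V → ℕ} {L K : ℕ} (hI : Inv C blk L K)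
    (hd : Disjoint U C) {u v : V} (huv : blk u ≠ blk v) (hU : s(u, v) ∈ U) {s : List ℕ}
    (hnd : s.Nodup) (hodd : Odd s.length) (h3 : 3 ≤ s.length) (hw : Lw C blk s u v) :
    HasOddCycle (clientGraph (insert s(u, v) C)) := by
  obtain ⟨p, hp, hlen, _⟩ := hw.exists_path hI.ne hnd
  have hle : clientGraph C ≤ clientGraph (insert s(u, v) C) := clientGraph_mono (subset_insert _ _)
  have hadj : (clientGraph (insert s(u, v) C)).Adj v u := by
    simp only [clientGraph, SimpleGraph.fromEdgeSet_adj]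
    refine ⟨?_, fun h => huv (by rw [h])⟩
    rw [Sym2.eq_swap]
    exact_mod_cast mem_insert_self _ _
  refine ⟨v, SimpleGraph.Walk.cons hadj (p.mapLe hle), ?_, ?_⟩
  · rw [SimpleGraph.Walk.cons_isCycle_iff]
    refine ⟨hp.mapLe hle, ?_⟩
    intro hmem
    rw [SimpleGraph.Walk.edges_mapLe_eq_edges] at hmem
    have := SimpleGraph.Walk.edges_subset_edgeSet p hmem
    rw [SimpleGraph.mem_edgeSet] at this
    simp only [clientGraph, SimpleGraph.fromEdgeSet_adj] at this
    have h1 : s(v, u) ∈ C := by exact_mod_cast this.1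
    rw [Sym2.eq_swap] at h1
    exact disjoint_left.1 hd hU h1
  · rw [SimpleGraph.Walk.length_cons]
    have : (p.mapLe hle).length = p.length := by simp
    rw [this, hlen]
    exact hodd

lemma final_step {Q L K m : ℕ} {blk : V → ℕ} {θ K₀ : ℝ} {U C : Finset (Sym2 V)}
    (h : Main blk L K m θ K₀ 0 L U C)
    (hsum : (Q : ℝ) ≤ ∑ b ∈ range L, ∑ a ∈ range b, wt L K m θ K₀ a b) :
    Force Q (fun _ C' => HasOddCycle (clientGraph C')) U C := by
  classical
  set B : Finset (V × V) := univ.filter (fun p : V × V => blk p.1 < blk p.2 ∧ blk p.2 < L ∧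
    s(p.1, p.2) ∈ U ∧ ∃ s : List ℕ, s.Nodup ∧ Odd s.length ∧ 3 ≤ s.length ∧
      Lw C blk s p.1 p.2) with hB
  have hBmem : ∀ p, p ∈ B ↔ blk p.1 < blk p.2 ∧ blk p.2 < L ∧
    s(p.1, p.2) ∈ U ∧ ∃ s : List ℕ, s.Nodup ∧ Odd s.length ∧ 3 ≤ s.length ∧
      Lw C blk s p.1 p.2 := by
    intro p
    rw [hB, mem_filter]
    exact ⟨fun h => h.2, fun h => ⟨mem_univ _, h⟩⟩
  have h1 : ∑ b ∈ range L, ∑ a ∈ range b, (bad blk U C a b).card = B.card := by
    rw [card_eq_sum_card_fiberwise (f := fun p : V × V => blk p.2) (t := range L)]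
    · apply sum_congr rfl
      intro b hb
      rw [card_eq_sum_card_fiberwise (f := fun p : V × V => blk p.1) (t := range b)]
      · apply sum_congr rfl
        intro a ha
        congr 1
        ext p
        rw [mem_range] at ha hb
        rw [mem_bad, mem_filter, mem_filter, hBmem]
        constructor
        · rintro ⟨h2, h3, h4⟩
          exact ⟨⟨⟨by omega, by omega, h4⟩, h3⟩, h2⟩
        · rintro ⟨⟨⟨_, _, h4⟩, h3⟩, h2⟩
          exact ⟨h2, h3, h4⟩
      · intro p hp
        rw [mem_coe, mem_filter, hBmem] at hp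
        rw [mem_coe, mem_range]
        have := hp.1.1
        have h2 : blk p.2 = b := hp.2
        show blk p.1 < b
        omega
    · intro p hp
      rw [mem_coe, hBmem] at hp
      rw [mem_coe, mem_range]
      exact hp.2.1
  have h2 : (Q : ℝ) ≤ B.card := by
    rw [← h1]
    push_cast
    refine hsum.trans ?_
    apply sum_le_sum
    intro b hb
    apply sum_le_sum
    intro a ha
    rw [mem_range] at ha hb
    exact h.bads a b ⟨ha, Or.inl hb⟩ hb
  have h3 : Q ≤ B.card := by exact_mod_cast h2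
  have hinj : Set.InjOn (fun p : V × V => s(p.1, p.2)) (B : Set (V × V)) := by
    intro p hp q hq hpq
    rw [mem_coe, hBmem] at hp hq
    have hpq : s(p.1, p.2) = s(q.1, q.2) := hpq
    rw [Sym2.eq_iff] at hpq
    rcases hpq with h | h
    · exact Prod.ext h.1 h.2
    · exfalso
      have h4 := hp.1
      have h5 := hq.1
      rw [h.1, h.2] at h4
      omega
  have h4 : Q ≤ (toEdges B).card := by
    rw [toEdges, card_image_of_injOn hinj]
    exact h3
  obtain ⟨O, hO, hOc⟩ := exists_subset_card_eq h4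
  refine Force.step U C O ?_ hOc ?_
  · intro e he
    have := hO he
    rw [mem_toEdges] at this
    obtain ⟨u, v, huv, rfl⟩ := this
    rw [hBmem] at huv
    exact huv.2.2.1
  · intro e he
    have := hO he
    rw [mem_toEdges] at this
    obtain ⟨u, v, huv, rfl⟩ := this
    rw [hBmem] at huv
    obtain ⟨h5, h6, h7, s, h8, h9, h10, h11⟩ := huv
    exact Force.here _ _ (odd_cycle_of_bad h.inv h.dis (ne_of_lt h5) h7 h8 h9 h10 h11)

theorem game {Q L K m : ℕ} {blk : V → ℕ} (hL : 3 ≤ L) (hQ : 0 < Q)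
    (hVb : ∀ i < L, (Vb blk i).card = m) (hm : (m : ℝ) ≤ (1 / L : ℝ) * Q) {θ K₀ : ℝ}
    (hθ : θ = (1 - 3 * (1 / L : ℝ)) * m / Q)
    (hK₀ : K₀ = (2 : ℝ) ^ (lab L K).card * 2 ^ (lab L K).card * ((L + 1) ^ (2 * K) + 1))
    (hsum : (Q : ℝ) ≤ ∑ b ∈ range L, ∑ a ∈ range b, wt L K m θ K₀ a b) :
    Force Q (fun _ C' => HasOddCycle (clientGraph C')) (⊤ : SimpleGraph V).edgeFinset ∅ :=
  (main_all hL hQ hVb hm hθ hK₀).bind fun _ _ h => final_step h hsum

end Pool.Agent.Helper3.WC
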