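import Pool.Agent.Helper3.WCDefs

namespace Pool.Agent.Helper3.WC

open Finset

variable {V : Type*} [DecidableEq V]

lemma clientGraph_mono {C C' : Finset (Sym2 V)} (h : C ⊆ C') : clientGraph C ≤ clientGraph C' := by
  intro u v huv
  simp only [clientGraph, SimpleGraph.fromEdgeSet_adj] at huv ⊢
  exact ⟨h huv.1, huv.2⟩

lemma HasOddCycle.mono {G H : SimpleGraph V} (h : G ≤ H) (hG : HasOddCycle G) : HasOddCycle H := by
  obtain ⟨u, p, hp, ho⟩ := hG
  refine ⟨u, p.mapLe h, hp.mapLe h, ?_⟩
  simpa using ho

/-- Once Client's graph has an odd cycle, Waiter wins whatever happens. -/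
lemma waiterWinsFrom_of_hasOddCycle (q : ℕ) : ∀ (n : ℕ) (U C : Finset (Sym2 V)), U.card ≤ n →
    HasOddCycle (clientGraph C) → WaiterWinsFrom q U C := by
  intro n
  induction n with
  | zero =>
    intro U C hU hC
    have : U = ∅ := by simpa using hU
    subst this
    exact WaiterWinsFrom.finished C hC
  | succ n ih =>
    intro U C hU hC
    rcases U.eq_empty_or_nonempty with rfl | hne
    · exact WaiterWinsFrom.finished C hC
    · by_cases hq : U.card < q + 1
      · refine WaiterWinsFrom.lastRound U C hne hq ?_
        intro e _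
        exact WaiterWinsFrom.finished _ (hC.mono (clientGraph_mono (subset_insert e C)))
      · push Not at hq
        obtain ⟨O, hO, hcard⟩ := exists_subset_card_eq hq
        refine WaiterWinsFrom.round U C O hO hcard ?_
        intro e _
        refine ih _ _ ?_ (hC.mono (clientGraph_mono (subset_insert e C)))
        rw [card_sdiff_of_subset hO]
        omega

/-- Waiter can force, by full rounds, that a position satisfying `P` is reached. -/
inductive Force (Q : ℕ) (P : Finset (Sym2 V) → Finset (Sym2 V) → Prop) :
    Finset (Sym2 V) → Finset (Sym2 V) → Prop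
  | here (U C : Finset (Sym2 V)) : P U C → Force Q P U C
  | step (U C O : Finset (Sym2 V)) : O ⊆ U → O.card = Q →
      (∀ e ∈ O, Force Q P (U \ O) (insert e C)) → Force Q P U C

lemma Force.bind {Q : ℕ} {P P' : Finset (Sym2 V) → Finset (Sym2 V) → Prop}
    {U C : Finset (Sym2 V)} (h : Force Q P U C)
    (hP : ∀ U' C', P U' C' → Force Q P' U' C') : Force Q P' U C := by
  induction h with
  | here U C h => exact hP _ _ h
  | step U C O hO hc _ ih => exact Force.step U C O hO hc ih

lemma Force.mono {Q : ℕ} {P P' : Finset (Sym2 V) → Finset (Sym2 V) → Prop}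
    {U C : Finset (Sym2 V)} (h : Force Q P U C)
    (hP : ∀ U' C', P U' C' → P' U' C') : Force Q P' U C :=
  h.bind fun U' C' h' => Force.here U' C' (hP U' C' h')

lemma Force.waiterWinsFrom {q : ℕ} {U C : Finset (Sym2 V)}
    (h : Force (q + 1) (fun _ C' => HasOddCycle (clientGraph C')) U C) : WaiterWinsFrom q U C := by
  induction h with
  | here U C h => exact waiterWinsFrom_of_hasOddCycle q _ U C le_rfl h
  | step U C O hO hc _ ih => exact WaiterWinsFrom.round U C O hO hc ih

end Pool.Agent.Helper3.WC
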