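import Pool.Agent.Helper3.WCWalk

namespace Pool.Agent.Helper3.WC

open Finset

set_option linter.unusedSectionVars false
set_option linter.unusedVariables false

variable {V : Type*} [DecidableEq V]

/-- Structural invariants of Client's graph during Waiter's strategy. -/
structure Inv (C : Finset (Sym2 V)) (blk : V → ℕ) (L R : ℕ) : Prop where
  lt : ∀ u v, s(u, v) ∈ C → blk u < L
  ne : ∀ u v, s(u, v) ∈ C → blk u ≠ blk v
  one : ∀ u v w, s(u, v) ∈ C → s(u, w) ∈ C → blk v = blk w → v = w
  unq : ∀ (s s' : List ℕ) (u v : V), s.Nodup → s'.Nodup → s.length ≤ R + 1 →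
    s'.length ≤ R + 1 → Lw C blk s u v → Lw C blk s' u v → s = s'

lemma Inv.empty (blk : V → ℕ) (L R : ℕ) : Inv (∅ : Finset (Sym2 V)) blk L R where
  lt := by simp
  ne := by simp
  one := by simp
  unq := by
    intro s s' u v hs hs' _ _ h h'
    have key : ∀ (t : List ℕ) (a b : V), Lw (∅ : Finset (Sym2 V)) blk t a b → t = [blk a] := by
      intro t a b ht
      match t, ht with
      | [i], ht => rw [ht.2]
      | i :: j :: t, ht =>
        obtain ⟨_, w, hw, _⟩ := ht
        simp at hw
    rw [key s u v h, key s' u v h']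

lemma Inv.insert {C : Finset (Sym2 V)} {blk : V → ℕ} {L R : ℕ} (hI : Inv C blk L R) {x y : V}
    (hx : blk x < L) (hy : blk y < L) (hxy : blk x ≠ blk y)
    (hx1 : ∀ v, s(x, v) ∈ C → blk v ≠ blk y) (hy1 : ∀ v, s(y, v) ∈ C → blk v ≠ blk x)
    (hfar : ¬ Near C (2 * R) x y) : Inv (insert s(x, y) C) blk L R where
  lt := by
    intro u v h
    rw [mem_insert, Sym2.eq_iff] at h
    rcases h with (⟨rfl, rfl⟩ | ⟨rfl, rfl⟩) | h
    · exact hx
    · exact hy
    · exact hI.lt u v h
  ne := by
    intro u v h
    rw [mem_insert, Sym2.eq_iff] at h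
    rcases h with (⟨rfl, rfl⟩ | ⟨rfl, rfl⟩) | h
    · exact hxy
    · exact hxy.symm
    · exact hI.ne u v h
  one := by
    intro u v w h h' hvw
    rw [mem_insert, Sym2.eq_iff] at h h'
    rcases h with (⟨rfl, rfl⟩ | ⟨rfl, rfl⟩) | h
    · rcases h' with (⟨_, rfl⟩ | ⟨h1, rfl⟩) | h'
      · rfl
      · exact (hxy hvw.symm).elim
      · exact (hx1 w h' hvw.symm).elim
    · rcases h' with (⟨_, rfl⟩ | ⟨h1, rfl⟩) | h'
      · exact (hxy hvw).elim
      · rfl
      · exact (hy1 w h' hvw.symm).elim
    · rcases h' with (⟨rfl, rfl⟩ | ⟨rfl, rfl⟩) | h'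
      · exact (hx1 v h hvw).elim
      · exact (hy1 v h hvw).elim
      · exact hI.one u v w h h' hvw
  unq := by
    have far : ∀ k, k ≤ 2 * R → ¬ Near C k x y := fun k hk hn => hfar (hn.le hk)
    -- one walk uses the new edge, the other does not
    have one_new : ∀ (s s' : List ℕ) (u v : V), s.length ≤ R + 1 →
        s'.length ≤ R + 1 → Lw C blk s u v →
        ((∃ s₁ s₂, s' = s₁ ++ s₂ ∧ Lw C blk s₁ u x ∧ Lw C blk s₂ y v) ∨
        (∃ s₁ s₂, s' = s₁ ++ s₂ ∧ Lw C blk s₁ u y ∧ Lw C blk s₂ x v)) → False := by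
      intro s s' u v hs hs' h h'
      have hpos := List.length_pos_of_ne_nil h.ne_nil
      rcases h' with ⟨s₁, s₂, rfl, h1, h2⟩ | ⟨s₁, s₂, rfl, h1, h2⟩
      · have hp1 := List.length_pos_of_ne_nil h1.ne_nil
        have hp2 := List.length_pos_of_ne_nil h2.ne_nil
        rw [List.length_append] at hs'
        exact far _ (by omega) ((h1.near.symm.trans h.near).trans h2.near.symm)
      · have hp1 := List.length_pos_of_ne_nil h1.ne_nil
        have hp2 := List.length_pos_of_ne_nil h2.ne_nil
        rw [List.length_append] at hs'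
        refine far _ ?_ ((h2.near.trans h.near.symm).trans h1.near)
        omega
    intro s s' u v hnd hnd' hs hs' h h'
    rcases h.of_insert hnd with h1 | h1
    · rcases h'.of_insert hnd' with h2 | h2
      · exact hI.unq s s' u v hnd hnd' hs hs' h1 h2
      · exact (one_new s s' u v hs hs' h1 h2).elim
    · rcases h'.of_insert hnd' with h2 | h2
      · exact (one_new s' s u v hs' hs h2 h1).elim
      · rcases h1 with ⟨s₁, s₂, rfl, h1, h3⟩ | ⟨s₁, s₂, rfl, h1, h3⟩ <;>
        rcases h2 with ⟨t₁, t₂, rfl, h2, h4⟩ | ⟨t₁, t₂, rfl, h2, h4⟩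
        · have hp1 := List.length_pos_of_ne_nil h1.ne_nil
          have hp2 := List.length_pos_of_ne_nil h2.ne_nil
          have hp3 := List.length_pos_of_ne_nil h3.ne_nil
          have hp4 := List.length_pos_of_ne_nil h4.ne_nil
          rw [List.length_append] at hs hs'
          rw [List.nodup_append] at hnd hnd'
          rw [hI.unq s₁ t₁ u x hnd.1 hnd'.1 (by omega) (by omega) h1 h2,
            hI.unq s₂ t₂ y v hnd.2.1 hnd'.2.1 (by omega) (by omega) h3 h4]
        · exfalso
          have hp1 := List.length_pos_of_ne_nil h1.ne_nil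
          have hp2 := List.length_pos_of_ne_nil h2.ne_nil
          have hp3 := List.length_pos_of_ne_nil h3.ne_nil
          have hp4 := List.length_pos_of_ne_nil h4.ne_nil
          rw [List.length_append] at hs hs'
          exact far _ (by omega) (h1.near.symm.trans h2.near)
        · exfalso
          have hp1 := List.length_pos_of_ne_nil h1.ne_nil
          have hp2 := List.length_pos_of_ne_nil h2.ne_nil
          have hp3 := List.length_pos_of_ne_nil h3.ne_nil
          have hp4 := List.length_pos_of_ne_nil h4.ne_nil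
          rw [List.length_append] at hs hs'
          exact far _ (by omega) (h2.near.symm.trans h1.near)
        · have hp1 := List.length_pos_of_ne_nil h1.ne_nil
          have hp2 := List.length_pos_of_ne_nil h2.ne_nil
          have hp3 := List.length_pos_of_ne_nil h3.ne_nil
          have hp4 := List.length_pos_of_ne_nil h4.ne_nil
          rw [List.length_append] at hs hs'
          rw [List.nodup_append] at hnd hnd'
          rw [hI.unq s₁ t₁ u y hnd.1 hnd'.1 (by omega) (by omega) h1 h2,
            hI.unq s₂ t₂ x v hnd.2.1 hnd'.2.1 (by omega) (by omega) h3 h4]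

/-- Degree bound: at most one neighbour in each of the `L` blocks. -/
lemma Inv.degree_le [Fintype V] {C : Finset (Sym2 V)} {blk : V → ℕ} {L R : ℕ}
    (hI : Inv C blk L R) (u : V) : (univ.filter (fun v => s(u, v) ∈ C)).card ≤ L := by
  have : ((univ.filter (fun v => s(u, v) ∈ C)).image blk).card ≤ (range L).card := by
    apply card_le_card
    intro i hi
    rw [mem_image] at hi
    obtain ⟨v, hv, rfl⟩ := hi
    rw [mem_filter] at hv
    rw [mem_range]
    exact hI.lt v u (by rw [Sym2.eq_swap]; exact hv.2)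
  rw [card_range] at this
  rwa [card_image_of_injOn] at this
  intro v hv w hw hvw
  simp only [coe_filter, mem_univ, true_and, Set.mem_setOf_eq] at hv hw
  exact hI.one u v w hv hw hvw

lemma Inv.card_ball_le [Fintype V] {C : Finset (Sym2 V)} {blk : V → ℕ} {L R : ℕ}
    (hI : Inv C blk L R) (k : ℕ) (u : V) : (ball C k u).card ≤ (L + 1) ^ k :=
  WC.card_ball_le hI.degree_le k u

end Pool.Agent.Helper3.WC
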