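import Pool.Agent.Helper3.WCFam

namespace Pool.Agent.Helper3.WC

open Finset

set_option linter.unusedSectionVars false
set_option linter.unusedVariables false

variable {V : Type*} [DecidableEq V] [Fintype V]

/-- The pair of blocks `a < b` comes before the pair of blocks `i, j`. -/
def Bef (i j a b : ℕ) : Prop := a < b ∧ (b < j ∨ (b = j ∧ a < i))

/-- The two blocks `a, b` form a pair that comes before the pair `i, j`. -/
def Rel (i j a b : ℕ) : Prop := Bef i j a b ∨ Bef i j b a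

lemma Rel.symm {i j a b : ℕ} (h : Rel i j a b) : Rel i j b a := Or.symm h

lemma bef_succ {i j a b : ℕ} (hij : i < j) :
    Bef (i + 1) j a b ↔ Bef i j a b ∨ (a = i ∧ b = j) := by
  unfold Bef
  omega

lemma bef_next {j a b : ℕ} : Bef j j a b ↔ Bef 0 (j + 1) a b := by
  unfold Bef
  omega

lemma bef_next' {j : ℕ} : Bef j j = Bef 0 (j + 1) := by
  funext a b
  exact propext bef_next

lemma lab_finite (L K : ℕ) :
    {s : List ℕ | s.Nodup ∧ (∀ x ∈ s, x < L) ∧ s.length ≤ K + 1}.Finite := by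
  refine ((List.finite_length_le (Fin L) (K + 1)).image (List.map Fin.val)).subset ?_
  rintro s ⟨_, h2, h3⟩
  refine ⟨s.pmap (fun x hx => (⟨x, hx⟩ : Fin L)) h2, ?_, ?_⟩
  · simpa using h3
  · rw [List.map_pmap]
    simp

/-- Label lists: distinct labels below `L`, at most `K + 1` of them. -/
noncomputable def lab (L K : ℕ) : Finset (List ℕ) := (lab_finite L K).toFinset

lemma mem_lab {L K : ℕ} {s : List ℕ} :
    s ∈ lab L K ↔ s.Nodup ∧ (∀ x ∈ s, x < L) ∧ s.length ≤ K + 1 := by
  simp [lab]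

open Classical in
/-- The number of labelled walks with label list `s`, counted by their starting vertex. -/
noncomputable def cnt (blk : V → ℕ) (C : Finset (Sym2 V)) (s : List ℕ) : ℕ :=
  (univ.filter (fun u => ∃ v, Lw C blk s u v)).card

lemma cnt_mono {blk : V → ℕ} {C C' : Finset (Sym2 V)} (h : C ⊆ C') (s : List ℕ) :
    cnt blk C s ≤ cnt blk C' s := by
  classical
  apply card_le_card
  intro u hu
  rw [mem_filter] at hu ⊢
  obtain ⟨_, v, hv⟩ := hu
  exact ⟨mem_univ _, v, hv.mono h⟩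

open Classical in
/-- The ordered pairs joined by a labelled walk with label list `s`. -/
noncomputable def prs (blk : V → ℕ) (C : Finset (Sym2 V)) (s : List ℕ) : Finset (V × V) :=
  univ.filter (fun p : V × V => Lw C blk s p.1 p.2)

lemma mem_prs {blk : V → ℕ} {C : Finset (Sym2 V)} {s : List ℕ} {p : V × V} :
    p ∈ prs blk C s ↔ Lw C blk s p.1 p.2 := by
  simp [prs]

lemma card_prs {blk : V → ℕ} {C : Finset (Sym2 V)}
    (one : ∀ u v w, s(u, v) ∈ C → s(u, w) ∈ C → blk v = blk w → v = w) (s : List ℕ) :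
    (prs blk C s).card = cnt blk C s := by
  classical
  rw [cnt]
  have : (univ.filter (fun u => ∃ v, Lw C blk s u v)) = (prs blk C s).image Prod.fst := by
    ext u
    rw [mem_filter, mem_image]
    constructor
    · rintro ⟨_, v, hv⟩
      exact ⟨(u, v), mem_prs.2 hv, rfl⟩
    · rintro ⟨p, hp, rfl⟩
      exact ⟨mem_univ _, p.2, mem_prs.1 hp⟩
  rw [this, card_image_of_injOn]
  intro p hp q hq hpq
  have hp' := mem_prs.1 (mem_coe.1 hp)
  have hq' := mem_prs.1 (mem_coe.1 hq)
  have hpq : p.1 = q.1 := hpq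
  rw [← hpq] at hq'
  exact Prod.ext hpq (Lw.det one hp' hq')

lemma card_prs_reverse {blk : V → ℕ} {C : Finset (Sym2 V)} (s : List ℕ) :
    (prs blk C s.reverse).card = (prs blk C s).card := by
  classical
  have : prs blk C s.reverse = (prs blk C s).image Prod.swap := by
    ext p
    rw [mem_prs, mem_image]
    constructor
    · intro h
      refine ⟨p.swap, mem_prs.2 ?_, Prod.swap_swap p⟩
      have := h.reverse
      rwa [List.reverse_reverse] at this
    · rintro ⟨q, hq, rfl⟩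
      exact (mem_prs.1 hq).reverse
  rw [this, card_image_of_injective _ Prod.swap_injective]

lemma cnt_reverse {blk : V → ℕ} {C : Finset (Sym2 V)}
    (one : ∀ u v w, s(u, v) ∈ C → s(u, w) ∈ C → blk v = blk w → v = w) (s : List ℕ) :
    cnt blk C s.reverse = cnt blk C s := by
  rw [← card_prs one, ← card_prs one, card_prs_reverse]

lemma cnt_cons {blk : V → ℕ} {C : Finset (Sym2 V)} (i : ℕ) (s : List ℕ)
    [DecidablePred (fun u => ∃ v, Lw C blk (i :: s) u v)] :
    ((Vb blk i).filter (fun u => ∃ v, Lw C blk (i :: s) u v)).card = cnt blk C (i :: s) := by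
  classical
  rw [cnt]
  apply congrArg card
  ext u
  simp only [mem_filter, mem_univ, true_and, mem_Vb, and_iff_right_iff_imp]
  rintro ⟨v, hv⟩
  exact hv.head

/-- Splitting a label list at the use of the pair `i, j`. -/
lemma chain_split {i j : ℕ} (hij : i < j) : ∀ (s : List ℕ), s.Nodup →
    s.IsChain (Rel (i + 1) j) → s.IsChain (Rel i j) ∨
    ∃ s₁ a b s₂, s = s₁ ++ a :: b :: s₂ ∧ ((a = i ∧ b = j) ∨ (a = j ∧ b = i)) ∧
      (s₁ ++ [a]).IsChain (Rel i j) ∧ (b :: s₂).IsChain (Rel i j) := by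
  intro s
  induction s with
  | nil => intro _ _; exact Or.inl List.isChain_nil
  | cons x s ih =>
    intro hnd hch
    cases s with
    | nil => exact Or.inl (List.isChain_singleton x)
    | cons y s =>
      rw [List.isChain_cons_cons] at hch
      have hnd' := (List.nodup_cons.1 hnd).2
      have hx := (List.nodup_cons.1 hnd).1
      have hrel : Rel i j x y ∨ ((x = i ∧ y = j) ∨ (x = j ∧ y = i)) := by
        rcases hch.1 with h | h
        · rcases (bef_succ hij).1 h with h | h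
          · exact Or.inl (Or.inl h)
          · exact Or.inr (Or.inl h)
        · rcases (bef_succ hij).1 h with h | h
          · exact Or.inl (Or.inr h)
          · exact Or.inr (Or.inr ⟨h.2, h.1⟩)
      rcases ih hnd' hch.2 with h | ⟨s₁, a, b, s₂, hs, hab, h1, h2⟩
      · rcases hrel with hr | hr
        · left
          rw [List.isChain_cons_cons]
          exact ⟨hr, h⟩
        · right
          exact ⟨[], x, y, s, rfl, hr, List.isChain_singleton x, h⟩
      · rcases hrel with hr | hr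
        · right
          refine ⟨x :: s₁, a, b, s₂, by rw [hs]; rfl, hab, ?_, h2⟩
          cases s₁ with
          | nil =>
            simp only [List.nil_append, List.cons.injEq] at hs
            rw [List.cons_append, List.nil_append, List.isChain_cons_cons]
            exact ⟨hs.1 ▸ hr, List.isChain_singleton a⟩
          | cons z s₁ =>
            simp only [List.cons_append, List.cons.injEq] at hs h1 ⊢
            rw [List.isChain_cons_cons]
            exact ⟨hs.1 ▸ hr, h1⟩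
        · exfalso
          apply hx
          have ha : a ∈ y :: s := by rw [hs]; simp
          have hb : b ∈ y :: s := by rw [hs]; simp
          rcases hab with ⟨rfl, rfl⟩ | ⟨rfl, rfl⟩ <;> rcases hr with ⟨h3, _⟩ | ⟨h3, _⟩ <;>
            rw [h3] <;> assumption

lemma Force.disjoint {Q : ℕ} {P : Finset (Sym2 V) → Finset (Sym2 V) → Prop}
    {U C : Finset (Sym2 V)} (h : Force Q P U C) (hd : Disjoint U C) :
    Force Q (fun U' C' => P U' C' ∧ Disjoint U' C') U C := by
  induction h with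
  | here U C h => exact Force.here _ _ ⟨h, hd⟩
  | step U C O hO hc _ ih =>
    refine Force.step U C O hO hc ?_
    intro e he
    apply ih e he
    rw [disjoint_left] at hd ⊢
    intro x hx hx'
    rw [mem_sdiff] at hx
    rw [mem_insert] at hx'
    rcases hx' with rfl | hx'
    · exact hx.2 he
    · exact hd hx.1 hx'

open Classical in
/-- The unclaimed pairs between blocks `a` and `b` that would close an odd cycle. -/
noncomputable def bad (blk : V → ℕ) (U C : Finset (Sym2 V)) (a b : ℕ) : Finset (V × V) :=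
  univ.filter (fun p : V × V => blk p.1 = a ∧ blk p.2 = b ∧ s(p.1, p.2) ∈ U ∧
    ∃ s : List ℕ, s.Nodup ∧ Odd s.length ∧ 3 ≤ s.length ∧ Lw C blk s p.1 p.2)

lemma mem_bad {blk : V → ℕ} {U C : Finset (Sym2 V)} {a b : ℕ} {p : V × V} :
    p ∈ bad blk U C a b ↔ blk p.1 = a ∧ blk p.2 = b ∧ s(p.1, p.2) ∈ U ∧
    ∃ s : List ℕ, s.Nodup ∧ Odd s.length ∧ 3 ≤ s.length ∧ Lw C blk s p.1 p.2 := by
  simp [bad]

/-- A lower bound for the number of labelled walks with `k` edges. -/
noncomputable def lb (m : ℕ) (θ K₀ : ℝ) (k : ℕ) : ℝ := θ ^ k * m - k * K₀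

open Classical in
/-- The label lists of the even paths from block `i` to block `j` that are counted. -/
noncomputable def goodLists (L K i j : ℕ) : Finset (List ℕ) :=
  (lab L K).filter (fun s => s.head? = some i ∧ s.getLast? = some j ∧ Odd s.length ∧
    3 ≤ s.length ∧ s.IsChain (Rel i j))

/-- The guaranteed number of bad pairs between blocks `i` and `j`. -/
noncomputable def wt (L K m : ℕ) (θ K₀ : ℝ) (i j : ℕ) : ℝ :=
  ∑ s ∈ goodLists L K i j, lb m θ K₀ (s.length - 1)

/-- The invariant at the time when the pairs before `(i, j)` have been processed. -/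
structure Main (blk : V → ℕ) (L K m : ℕ) (θ K₀ : ℝ) (i j : ℕ) (U C : Finset (Sym2 V)) : Prop where
  inv : Inv C blk L K
  dis : Disjoint U C
  fresh : ∀ u v, blk u < blk v → blk v < L → ¬ Bef i j (blk u) (blk v) →
    s(u, v) ∈ U ∧ s(u, v) ∉ C
  many : ∀ s ∈ lab L K, s ≠ [] → s.IsChain (Rel i j) → lb m θ K₀ (s.length - 1) ≤ cnt blk C s
  bads : ∀ a b, Bef i j a b → b < L → wt L K m θ K₀ a b ≤ (bad blk U C a b).card

lemma lb_mul {m Q k₁ k₂ N₁ N₂ : ℕ} {θ K₀ η : ℝ} (hη : 0 ≤ 1 - 3 * η) (hη0 : 0 ≤ η) (hK₀ : 0 ≤ K₀)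
    (hQ : (0 : ℝ) < Q) (hmQ : (m : ℝ) ≤ Q) (hθ : θ = (1 - 3 * η) * m / Q)
    (h1 : lb m θ K₀ k₁ ≤ N₁) (h2 : lb m θ K₀ k₂ ≤ N₂) :
    lb m θ K₀ (k₁ + k₂ + 1) ≤ (1 - 3 * η) * (N₁ * N₂ / Q) - K₀ := by
  have hm0 : (0 : ℝ) ≤ m := by positivity
  have hθ0 : 0 ≤ θ := by rw [hθ]; positivity
  have hmQ1 : (m : ℝ) / Q ≤ 1 := by rw [div_le_one hQ]; exact hmQ
  have hmQ0 : (0 : ℝ) ≤ (m : ℝ) / Q := by positivity
  have hθ1 : θ ≤ 1 := by
    rw [hθ, mul_div_assoc]
    nlinarith
  unfold lb at *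
  set a := θ ^ k₁ * (m : ℝ) with ha
  set b := θ ^ k₂ * (m : ℝ) with hb
  set c₁ := (k₁ : ℝ) * K₀ with hc₁
  set c₂ := (k₂ : ℝ) * K₀ with hc₂
  have ha0 : 0 ≤ a := by positivity
  have hb0 : 0 ≤ b := by positivity
  have ham : a ≤ m := by
    rw [ha]
    calc θ ^ k₁ * (m : ℝ) ≤ 1 * m := mul_le_mul_of_nonneg_right (pow_le_one₀ hθ0 hθ1) hm0
      _ = m := one_mul _
  have hbm : b ≤ m := by
    rw [hb]
    calc θ ^ k₂ * (m : ℝ) ≤ 1 * m := mul_le_mul_of_nonneg_right (pow_le_one₀ hθ0 hθ1) hm0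
      _ = m := one_mul _
  have hc10 : 0 ≤ c₁ := by positivity
  have hc20 : 0 ≤ c₂ := by positivity
  have hN10 : (0 : ℝ) ≤ N₁ := by positivity
  have hN20 : (0 : ℝ) ≤ N₂ := by positivity
  have key : a * b - c₁ * b - c₂ * a ≤ (N₁ : ℝ) * N₂ := by
    by_cases h3 : a ≤ c₁
    · have : a * b ≤ c₁ * b := mul_le_mul_of_nonneg_right h3 hb0
      have h4 : 0 ≤ c₂ * a := mul_nonneg hc20 ha0
      have h5 : (0 : ℝ) ≤ (N₁ : ℝ) * N₂ := mul_nonneg hN10 hN20
      linarith
    · by_cases h4 : b ≤ c₂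
      · have : a * b ≤ a * c₂ := mul_le_mul_of_nonneg_left h4 ha0
        have h5 : 0 ≤ c₁ * b := mul_nonneg hc10 hb0
        have h6 : (0 : ℝ) ≤ (N₁ : ℝ) * N₂ := mul_nonneg hN10 hN20
        linarith
      · push Not at h3 h4
        have h5 : (a - c₁) * (b - c₂) ≤ (N₁ : ℝ) * N₂ :=
          mul_le_mul h1 h2 (by linarith) hN10
        have h6 : 0 ≤ c₁ * c₂ := mul_nonneg hc10 hc20
        nlinarith
  have key2 : a * b - (c₁ + c₂) * m ≤ (N₁ : ℝ) * N₂ := by
    have h3 : c₁ * b ≤ c₁ * m := mul_le_mul_of_nonneg_left hbm hc10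
    have h4 : c₂ * a ≤ c₂ * m := mul_le_mul_of_nonneg_left ham hc20
    linarith
  have hcoef : 0 ≤ (1 - 3 * η) / Q := by positivity
  have key3 := mul_le_mul_of_nonneg_left key2 hcoef
  have e1 : (1 - 3 * η) / Q * (a * b - (c₁ + c₂) * m) =
      θ ^ (k₁ + k₂ + 1) * m - (c₁ + c₂) * ((1 - 3 * η) * ((m : ℝ) / Q)) := by
    rw [ha, hb, pow_succ, pow_add]
    nth_rewrite 5 [hθ]
    field_simp
  have e2 : (1 - 3 * η) / Q * ((N₁ : ℝ) * N₂) = (1 - 3 * η) * (N₁ * N₂ / Q) := by ring
  rw [e1, e2] at key3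
  have h3 : (c₁ + c₂) * ((1 - 3 * η) * ((m : ℝ) / Q)) ≤ (c₁ + c₂) * 1 := by
    apply mul_le_mul_of_nonneg_left _ (by linarith)
    nlinarith
  have e3 : ((k₁ + k₂ + 1 : ℕ) : ℝ) * K₀ = c₁ + c₂ + K₀ := by
    rw [hc₁, hc₂]
    push_cast
    ring
  rw [e3]
  linarith

end Pool.Agent.Helper3.WC
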