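import Pool.Agent.Helper3.WCMain

namespace Pool.Agent.Helper3.WC

open Finset

set_option linter.unusedSectionVars false
set_option linter.unusedVariables false

variable {V : Type*} [DecidableEq V] [Fintype V]

lemma Lw.last {C : Finset (Sym2 V)} {blk : V → ℕ} {s : List ℕ} {j : ℕ} {u v : V}
    (h : Lw C blk s u v) (hj : s.getLast? = some j) : blk v = j := by
  have h1 := h.reverse
  have h2 : s.reverse.head? = some j := by rwa [List.head?_reverse]
  cases hs : s.reverse with
  | nil => rw [hs] at h2; simp at h2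
  | cons x t =>
    rw [hs] at h1 h2
    simp only [List.head?_cons, Option.some.injEq] at h2
    rw [← h2]
    exact h1.head

lemma Lw.head' {C : Finset (Sym2 V)} {blk : V → ℕ} {s : List ℕ} {i : ℕ} {u v : V}
    (h : Lw C blk s u v) (hi : s.head? = some i) : blk u = i := by
  cases hs : s with
  | nil => rw [hs] at hi; simp at hi
  | cons x t =>
    rw [hs] at h hi
    simp only [List.head?_cons, Option.some.injEq] at hi
    rw [← hi]
    exact h.head

/-- New walks through the matching `M`. -/
lemma card_le_cnt {C C' : Finset (Sym2 V)} {blk : V → ℕ} {N : Finset (V × V)}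
    (hC : C ⊆ C') (one : ∀ u v w, s(u, v) ∈ C → s(u, w) ∈ C → blk v = blk w → v = w)
    (t₁ t₂ : List ℕ) (f g : V × V → V)
    (hf : ∀ p ∈ N, ∀ q ∈ N, f p = f q → p = q)
    (he : ∀ p ∈ N, s(f p, g p) ∈ C') (h1 : ∀ p ∈ N, ∃ x, Lw C blk t₁.reverse (f p) x)
    (h2 : ∀ p ∈ N, ∃ y, Lw C blk t₂ (g p) y) :
    N.card ≤ cnt blk C' (t₁ ++ t₂) := by
  classical
  choose x hx using h1
  choose y hy using h2
  rw [cnt]
  refine card_le_card_of_injOn (fun p => if h : p ∈ N then x p h else p.1) ?_ ?_
  · intro p hp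
    have hp' := mem_coe.1 hp
    rw [mem_coe, mem_filter]
    refine ⟨mem_univ _, y p hp', ?_⟩
    simp only [hp', dif_pos]
    have h3 := (hx p hp').reverse
    rw [List.reverse_reverse] at h3
    exact (h3.mono hC).append (he p hp') ((hy p hp').mono hC)
  · intro p hp q hq hpq
    have hp' := mem_coe.1 hp
    have hq' := mem_coe.1 hq
    simp only [hp', hq', dif_pos] at hpq
    apply hf p hp' q hq'
    have h3 := hx p hp'
    rw [hpq] at h3
    exact Lw.det' one h3 (hx q hq')

lemma main_step {Q L K m : ℕ} {blk : V → ℕ} (hL : 3 ≤ L) (hQ : 0 < Q)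
    (hVb : ∀ i < L, (Vb blk i).card = m) (hm : (m : ℝ) ≤ (1 / L : ℝ) * Q)
    {i j : ℕ} (hij : i < j) (hj : j < L) {U C : Finset (Sym2 V)} {θ K₀ : ℝ}
    (hθ : θ = (1 - 3 * (1 / L : ℝ)) * m / Q)
    (hK₀ : K₀ = (2 : ℝ) ^ (lab L K).card * 2 ^ (lab L K).card * ((L + 1) ^ (2 * K) + 1))
    (h : Main blk L K m θ K₀ i j U C) :
    Force Q (Main blk L K m θ K₀ (i + 1) j) U C := by
  classical
  have hi : i < L := hij.trans hj
  have hLpos : 0 < L := by omega
  have hL' : (3 : ℝ) ≤ L := by exact_mod_cast hL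
  have hη0 : (0 : ℝ) ≤ 1 / L := by positivity
  have hη : (0 : ℝ) ≤ 1 - 3 * (1 / L : ℝ) := by
    rw [sub_nonneg, mul_one_div, div_le_one (by linarith)]
    exact hL'
  have hη1 : (1 / L : ℝ) ≤ 1 := by
    rw [div_le_one (by linarith)]
    linarith
  have hQ' : (0 : ℝ) < Q := by exact_mod_cast hQ
  have hmQ : (m : ℝ) ≤ Q := by
    refine hm.trans ?_
    calc (1 / L : ℝ) * Q ≤ 1 * Q := mul_le_mul_of_nonneg_right hη1 hQ'.le
      _ = Q := one_mul _
  have hK₀' : 0 ≤ K₀ := by rw [hK₀]; positivity
  have hnb : ¬ Bef i j i j := by unfold Bef; omega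
  have hfr : ∀ u v, blk u = i → blk v = j → s(u, v) ∈ U ∧ s(u, v) ∉ C := by
    intro u v hu hv
    refine h.fresh u v (by rw [hu, hv]; exact hij) (by rw [hv]; exact hj) ?_
    rw [hu, hv]
    exact hnb
  refine ((famstep (R := K) hi hj hij.ne hLpos hQ (by rw [hVb i hi]; exact hm)
    (by rw [hVb j hj]; exact hm) h.inv (fun u v hu hv => (hfr u v hu hv).1)
    (fun u v hu hv => (hfr u v hu hv).2) (lab L K)
    (fun s u => ∃ v, Lw C blk s u v)).disjoint h.dis).mono ?_
  rintro U' C' ⟨⟨M, hM, hMm, hC', hU', hlost, hInv, hcnt⟩, hdis⟩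
  have hCC' : C ⊆ C' := by rw [hC']; exact subset_union_left
  have hMC' : ∀ p ∈ M, s(p.1, p.2) ∈ C' := by
    intro p hp
    rw [hC', mem_union, mem_toEdges]
    exact Or.inr ⟨p.1, p.2, hp, rfl⟩
  have hMi : ∀ p ∈ M, blk p.1 = i := fun p hp => mem_Vb.1 (mem_product.1 (hM hp)).1
  have hMj : ∀ p ∈ M, blk p.2 = j := fun p hp => mem_Vb.1 (mem_product.1 (hM hp)).2
  rw [← hK₀] at hcnt
  refine ⟨hInv, hdis, ?_, ?_, ?_⟩
  · -- fresh pairs
    intro u v huv hv hbef
    rw [bef_succ hij, not_or] at hbef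
    obtain ⟨h1, h2⟩ := h.fresh u v huv hv hbef.1
    constructor
    · by_contra hcon
      obtain ⟨u', v', h3, h4, h5, _⟩ := hlost _ h1 hcon
      rw [Sym2.eq_iff] at h5
      rcases h5 with ⟨rfl, rfl⟩ | ⟨rfl, rfl⟩
      · exact hbef.2 ⟨h3, h4⟩
      · omega
    · intro hcon
      rw [hC', mem_union, mem_toEdges] at hcon
      rcases hcon with hcon | ⟨u', v', h3, h5⟩
      · exact h2 hcon
      · have h6 := hMi _ h3
        have h7 := hMj _ h3
        simp only at h6 h7
        rw [Sym2.eq_iff] at h5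
        rcases h5 with ⟨rfl, rfl⟩ | ⟨rfl, rfl⟩
        · exact hbef.2 ⟨h6, h7⟩
        · omega
  · -- many walks
    intro s hs hne hch
    have hslab := mem_lab.1 hs
    rcases chain_split hij s hslab.1 hch with hch | ⟨s₁, a, b, s₂, rfl, hab, hch1, hch2⟩
    · exact (h.many s hs hne hch).trans (by exact_mod_cast cnt_mono hCC' s)
    · have hsplit : s₁ ++ a :: b :: s₂ = (s₁ ++ [a]) ++ (b :: s₂) := by simp
      rw [hsplit] at hslab ⊢
      have hnd := List.nodup_append.1 hslab.1
      have hlen : (s₁ ++ [a] ++ b :: s₂).length = (s₁ ++ [a]).length + (b :: s₂).length :=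
        List.length_append
      have hl1 : 0 < (s₁ ++ [a]).length := by simp
      have hl2 : 0 < (b :: s₂).length := by simp
      have hlab1 : s₁ ++ [a] ∈ lab L K := by
        rw [mem_lab]
        refine ⟨hnd.1, fun x hx => hslab.2.1 x (List.mem_append_left _ hx), ?_⟩
        omega
      have hlab2 : b :: s₂ ∈ lab L K := by
        rw [mem_lab]
        refine ⟨hnd.2.1, fun x hx => hslab.2.1 x (List.mem_append_right _ hx), ?_⟩
        omega
      have hlab1' : (s₁ ++ [a]).reverse ∈ lab L K := by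
        rw [mem_lab] at hlab1 ⊢
        refine ⟨List.nodup_reverse.2 hlab1.1, fun x hx => hlab1.2.1 x (List.mem_reverse.1 hx), ?_⟩
        rw [List.length_reverse]
        exact hlab1.2.2
      have hN1 := h.many _ hlab1 (by simp) hch1
      have hN2 := h.many _ hlab2 (by simp) hch2
      have hk : (s₁ ++ [a] ++ b :: s₂).length - 1 =
          ((s₁ ++ [a]).length - 1) + ((b :: s₂).length - 1) + 1 := by omega
      rw [hk]
      have hmul := lb_mul hη hη0 hK₀' hQ' hmQ hθ hN1 hN2
      refine hmul.trans ?_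
      have hrev : (s₁ ++ [a]).reverse = a :: s₁.reverse := by simp
      have hc1 : cnt blk C (s₁ ++ [a]) = cnt blk C (a :: s₁.reverse) := by
        rw [← hrev, cnt_reverse h.inv.one]
      rcases hab with ⟨rfl, rfl⟩ | ⟨rfl, rfl⟩
      · -- first orientation
        have hc := hcnt _ hlab1' _ hlab2
        rw [hrev] at hc
        rw [cnt_cons, cnt_cons, ← hc1] at hc
        refine hc.trans ?_
        norm_cast
        refine card_le_cnt hCC' h.inv.one (s₁ ++ [a]) (b :: s₂) Prod.fst Prod.snd ?_ ?_ ?_ ?_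
        · intro p hp q hq hpq
          exact hMm.1 p (mem_filter.1 hp).1 q (mem_filter.1 hq).1 hpq
        · intro p hp
          exact hMC' p (mem_filter.1 hp).1
        · intro p hp
          rw [hrev]
          exact (mem_filter.1 hp).2.1
        · intro p hp
          exact (mem_filter.1 hp).2.2
      · -- second orientation
        have hc := hcnt _ hlab2 _ hlab1'
        rw [hrev] at hc
        rw [cnt_cons, cnt_cons, ← hc1, mul_comm (cnt blk C (b :: s₂) : ℝ)] at hc
        refine hc.trans ?_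
        norm_cast
        refine card_le_cnt hCC' h.inv.one (s₁ ++ [a]) (b :: s₂) Prod.snd Prod.fst ?_ ?_ ?_ ?_
        · intro p hp q hq hpq
          exact hMm.2 p (mem_filter.1 hp).1 q (mem_filter.1 hq).1 hpq
        · intro p hp
          rw [Sym2.eq_swap]
          exact hMC' p (mem_filter.1 hp).1
        · intro p hp
          rw [hrev]
          exact (mem_filter.1 hp).2.2
        · intro p hp
          exact (mem_filter.1 hp).2.1
  · -- bad pairs
    intro a b hab hb
    rw [bef_succ hij] at hab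
    rcases hab with hab | ⟨rfl, rfl⟩
    · refine (h.bads a b hab hb).trans ?_
      norm_cast
      apply card_le_card
      intro p hp
      rw [mem_bad] at hp ⊢
      obtain ⟨h1, h2, h3, s, h4, h5, h6, h7⟩ := hp
      refine ⟨h1, h2, ?_, s, h4, h5, h6, h7.mono hCC'⟩
      by_contra hcon
      obtain ⟨u', v', h8, h9, h10, _⟩ := hlost _ h3 hcon
      unfold Bef at hab
      rw [Sym2.eq_iff] at h10
      rcases h10 with ⟨h10, h11⟩ | ⟨h10, h11⟩
      · rw [h10, h8] at h1
        rw [h11, h9] at h2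
        omega
      · rw [h10, h9] at h1
        rw [h11, h8] at h2
        omega
    · have hgl : ∀ s ∈ goodLists L K a b, s ∈ lab L K ∧ s.head? = some a ∧
          s.getLast? = some b ∧ Odd s.length ∧ 3 ≤ s.length ∧ s.IsChain (Rel a b) := by
        intro s hs
        rw [goodLists, mem_filter] at hs
        exact ⟨hs.1, hs.2.1, hs.2.2.1, hs.2.2.2.1, hs.2.2.2.2.1, hs.2.2.2.2.2⟩
      have h1 : wt L K m θ K₀ a b ≤ ∑ s ∈ goodLists L K a b, ((prs blk C s).card : ℝ) := by
        apply sum_le_sum
        intro s hs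
        obtain ⟨h2, h3, h4, h5, h6, h7⟩ := hgl s hs
        rw [card_prs h.inv.one]
        refine h.many s h2 ?_ h7
        rintro rfl
        simp at h6
      refine h1.trans ?_
      rw [← Nat.cast_sum, ← card_biUnion]
      · norm_cast
        apply card_le_card
        intro p hp
        rw [mem_biUnion] at hp
        obtain ⟨s, hs, hp⟩ := hp
        rw [mem_prs] at hp
        obtain ⟨h2, h3, h4, h5, h6, h7⟩ := hgl s hs
        rw [mem_lab] at h2
        have h8 := hp.head' h3
        have h9 := hp.last h4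
        rw [mem_bad]
        refine ⟨h8, h9, ?_, s, h2.1, h5, h6, hp.mono hCC'⟩
        by_contra hcon
        obtain ⟨u', v', h10, h11, h12, h13⟩ := hlost _ (hfr _ _ h8 h9).1 hcon
        apply h13
        rw [Sym2.eq_iff] at h12
        have hnear : Near C (2 * K) p.1 p.2 := hp.near.le (by omega)
        rcases h12 with ⟨h12, h14⟩ | ⟨h12, h14⟩
        · rw [← h12, ← h14]
          exact hnear
        · rw [← h12, ← h14]
          exact hnear.symm
      · intro s hs t ht hst
        rw [Function.onFun, disjoint_left]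
        intro p hp hp'
        rw [mem_prs] at hp hp'
        obtain ⟨h2, _⟩ := hgl s (mem_coe.1 hs)
        obtain ⟨h3, _⟩ := hgl t (mem_coe.1 ht)
        rw [mem_lab] at h2 h3
        exact hst (h.inv.unq s t p.1 p.2 h2.1 h3.1 h2.2.2 h3.2.2 hp hp')

end Pool.Agent.Helper3.WC
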