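import Pool.Agent.Helper3.WCCount

namespace Pool.Agent.Helper3.WC

open Finset Filter Topology

set_option linter.unusedSectionVars false
set_option linter.unusedVariables false

/-- The limit of (number of bad pairs) / n for the parameters `J, L, ε`. -/
noncomputable def gain (J L : ℕ) (ε : ℝ) : ℝ :=
  ∑ j ∈ range J, (L.descFactorial (2 * j + 3) : ℝ) / (2 * (2 * j + 3)) *
    (((1 - 3 * (1 / L : ℝ)) * ((1 / L : ℝ) / (1 + ε))) ^ (2 * j + 2) * (1 / L : ℝ))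

lemma tendsto_descFactorial_div (k : ℕ) :
    Tendsto (fun L : ℕ => ((L.descFactorial k : ℕ) : ℝ) / (L : ℝ) ^ k) atTop (𝓝 1) := by
  have hz : ∀ᶠ (x : ℕ) in atTop, ((x : ℝ) ^ k) ≠ 0 :=
      eventually_atTop.mpr ⟨1, fun n hn ↦ by positivity⟩
  exact (Asymptotics.isEquivalent_iff_tendsto_one hz).1 (isEquivalent_descFactorial k)

lemma exists_J : ∃ J : ℕ, (1 : ℝ) < ∑ j ∈ range J, 1 / (2 * (2 * (j : ℝ) + 3)) := by
  have h := Real.tendsto_sum_range_one_div_nat_succ_atTop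
  obtain ⟨J, hJ⟩ := (h.eventually_gt_atTop 6).exists
  refine ⟨J, ?_⟩
  have h1 : ∑ i ∈ range J, (1 / 6 : ℝ) * (1 / ((i : ℝ) + 1)) ≤
      ∑ j ∈ range J, 1 / (2 * (2 * (j : ℝ) + 3)) := by
    apply sum_le_sum
    intro i _
    rw [div_mul_div_comm, one_mul]
    apply one_div_le_one_div_of_le
    · positivity
    · have : (0 : ℝ) ≤ i := by positivity
      linarith
  rw [← mul_sum] at h1
  linarith

lemma exists_params : ∃ (J L : ℕ) (ε : ℝ), 4 ≤ L ∧ 0 < ε ∧ 1 + ε < gain J L ε := by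
  obtain ⟨J, hJ⟩ := exists_J
  -- choice of `L`
  have h1 : Tendsto (fun L : ℕ => gain J L 0) atTop
      (𝓝 (∑ j ∈ range J, 1 / (2 * (2 * (j : ℝ) + 3)))) := by
    unfold gain
    apply tendsto_finsetSum
    intro j _
    have h2 : Tendsto (fun L : ℕ => (1 - 3 * (1 / (L : ℝ))) ^ (2 * j + 2)) atTop (𝓝 1) := by
      have h3 : Tendsto (fun L : ℕ => (1 - 3 * (1 / (L : ℝ)))) atTop (𝓝 (1 - 3 * 0)) :=
        tendsto_const_nhds.sub (tendsto_const_nhds.mul tendsto_one_div_atTop_nhds_zero_nat)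
      have h4 := h3.pow (2 * j + 2)
      simpa using h4
    have h5 := ((tendsto_descFactorial_div (2 * j + 3)).mul h2).mul_const
      (1 / (2 * (2 * (j : ℝ) + 3)))
    rw [one_mul, one_mul] at h5
    refine h5.congr' ?_
    filter_upwards [eventually_gt_atTop 0] with L hL
    have hL' : (L : ℝ) ≠ 0 := by positivity
    have h6 : (2 * (j : ℝ) + 3) ≠ 0 := by positivity
    have h7 : ((1 - 3 * (1 / (L : ℝ))) * ((1 / (L : ℝ)) / (1 + 0))) ^ (2 * j + 2) =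
        (1 - 3 * (1 / (L : ℝ))) ^ (2 * j + 2) * (1 / (L : ℝ)) ^ (2 * j + 2) := by
      rw [add_zero, div_one, mul_pow]
    rw [h7]
    have h8 : (L : ℝ) ^ (2 * j + 3) = L ^ (2 * j + 2) * L := by ring
    rw [h8]
    have h9 : (1 / (L : ℝ)) ^ (2 * j + 2) = 1 / L ^ (2 * j + 2) := by
      rw [div_pow, one_pow]
    rw [h9]
    field_simp
  obtain ⟨L, hL1, hL2⟩ := ((h1.eventually (lt_mem_nhds hJ)).and (eventually_ge_atTop 4)).exists
  -- choice of `ε`
  have h2 : ContinuousAt (fun ε : ℝ => gain J L ε - (1 + ε)) 0 := by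
    apply ContinuousAt.sub
    · unfold gain
      apply tendsto_finsetSum
      intro j _
      have h3 : ContinuousAt (fun ε : ℝ => (1 / (L : ℝ)) / (1 + ε)) 0 := by
        apply ContinuousAt.div continuousAt_const (continuousAt_const.add continuousAt_id)
        simp
      exact (continuousAt_const.mul (((continuousAt_const.mul h3).pow _).mul continuousAt_const))
    · exact continuousAt_const.add continuousAt_id
  have h3 : ∀ᶠ ε in 𝓝 (0 : ℝ), 0 < gain J L ε - (1 + ε) := by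
    apply h2.eventually (lt_mem_nhds _)
    simp only [add_zero]
    linarith
  have h4 : ∀ᶠ ε in 𝓝[>] (0 : ℝ), 0 < gain J L ε - (1 + ε) := h3.filter_mono nhdsWithin_le_nhds
  obtain ⟨ε, hε1, hε2⟩ := (h4.and self_mem_nhdsWithin).exists
  refine ⟨J, L, ε, hL2, hε2, by linarith⟩

/-- For fixed parameters, the sum of the guaranteed numbers of bad pairs divided by `n`. -/
lemma tendsto_total {J L : ℕ} {ε : ℝ} (hL : 4 ≤ L) (hε : 0 < ε) (K₀ : ℝ) :
    Tendsto (fun n : ℕ => (∑ j ∈ range J, (L.descFactorial (2 * j + 3) : ℝ) / (2 * (2 * j + 3)) *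
      lb (n / L) ((1 - 3 * (1 / L : ℝ)) * ((n / L : ℕ) : ℝ) / ((⌈(1 + ε) * n⌉₊ + 1 : ℕ) : ℝ)) K₀
        (2 * j + 2)) / n) atTop (𝓝 (gain J L ε)) ∧
    (∀ k, ∀ᶠ n : ℕ in atTop, 0 ≤
      lb (n / L) ((1 - 3 * (1 / L : ℝ)) * ((n / L : ℕ) : ℝ) / ((⌈(1 + ε) * n⌉₊ + 1 : ℕ) : ℝ)) K₀
        k) ∧
    Tendsto (fun n : ℕ => ((⌈(1 + ε) * n⌉₊ + 1 : ℕ) : ℝ) / n) atTop (𝓝 (1 + ε)) := by
  have hL' : (4 : ℝ) ≤ L := by exact_mod_cast hL
  have hmu : Tendsto (fun n : ℕ => ((n / L : ℕ) : ℝ) / n) atTop (𝓝 (1 / L)) := by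
    have h1 := (tendsto_nat_floor_mul_div_atTop (R := ℝ) (a := 1 / L) (by positivity)).comp
      tendsto_natCast_atTop_atTop
    refine h1.congr ?_
    intro n
    simp only [Function.comp_apply]
    rw [one_div_mul_eq_div, Nat.floor_div_eq_div]
  have hka : Tendsto (fun n : ℕ => ((⌈(1 + ε) * n⌉₊ + 1 : ℕ) : ℝ) / n) atTop (𝓝 (1 + ε)) := by
    have h1 := (tendsto_nat_ceil_mul_div_atTop (R := ℝ) (a := 1 + ε) (by positivity)).comp
      tendsto_natCast_atTop_atTop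
    have h2 := h1.add (tendsto_one_div_atTop_nhds_zero_nat (𝕜 := ℝ))
    rw [add_zero] at h2
    refine h2.congr ?_
    intro n
    simp only [Function.comp_apply]
    push_cast
    ring
  have hth : Tendsto (fun n : ℕ => (1 - 3 * (1 / L : ℝ)) * ((n / L : ℕ) : ℝ) /
      ((⌈(1 + ε) * n⌉₊ + 1 : ℕ) : ℝ)) atTop
      (𝓝 ((1 - 3 * (1 / L : ℝ)) * ((1 / L : ℝ) / (1 + ε)))) := by
    have h1 := (hmu.div hka (by positivity)).const_mul (1 - 3 * (1 / L : ℝ))
    refine h1.congr' ?_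
    filter_upwards [eventually_gt_atTop 0] with n hn
    have hn' : (n : ℝ) ≠ 0 := by positivity
    have hQ : ((⌈(1 + ε) * n⌉₊ + 1 : ℕ) : ℝ) ≠ 0 := by positivity
    show (1 - 3 * (1 / L : ℝ)) * ((((n / L : ℕ) : ℝ) / n) /
      (((⌈(1 + ε) * n⌉₊ + 1 : ℕ) : ℝ) / n)) = _
    rw [div_div_div_cancel_right₀ hn', mul_div_assoc]
  have hlb : ∀ k : ℕ, Tendsto (fun n : ℕ =>
      lb (n / L) ((1 - 3 * (1 / L : ℝ)) * ((n / L : ℕ) : ℝ) / ((⌈(1 + ε) * n⌉₊ + 1 : ℕ) : ℝ)) K₀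
        k / n) atTop
      (𝓝 (((1 - 3 * (1 / L : ℝ)) * ((1 / L : ℝ) / (1 + ε))) ^ k * (1 / L : ℝ))) := by
    intro k
    have h1 := ((hth.pow k).mul hmu).sub (tendsto_const_div_atTop_nhds_zero_nat ((k : ℝ) * K₀))
    rw [sub_zero] at h1
    refine h1.congr ?_
    intro n
    unfold lb
    ring
  refine ⟨?_, ?_, hka⟩
  · have h1 := tendsto_finsetSum (range J) (fun j _ => (hlb (2 * j + 2)).const_mul
      ((L.descFactorial (2 * j + 3) : ℝ) / (2 * (2 * (j : ℝ) + 3))))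
    unfold gain
    refine h1.congr ?_
    intro n
    rw [sum_div]
    apply sum_congr rfl
    intro j _
    ring
  · intro k
    have hpos : 0 < ((1 - 3 * (1 / L : ℝ)) * ((1 / L : ℝ) / (1 + ε))) ^ k * (1 / L : ℝ) := by
      have h3 : 0 < 1 - 3 * (1 / L : ℝ) := by
        rw [sub_pos, mul_one_div, div_lt_one (by linarith)]
        linarith
      positivity
    filter_upwards [(hlb k).eventually (lt_mem_nhds hpos), eventually_gt_atTop 0] with n hn hn0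
    have hn' : (0 : ℝ) < n := by exact_mod_cast hn0
    by_contra hcon
    push Not at hcon
    have := div_neg_of_neg_of_pos hcon hn'
    linarith

/-- The blocks of consecutive vertices. -/
lemma card_block {n L m : ℕ} (hm : 0 < m) (hmn : L * m ≤ n) {i : ℕ} (hi : i < L) :
    (Vb (fun v : Fin n => v.val / m) i).card = m := by
  classical
  have h1 : (Vb (fun v : Fin n => v.val / m) i).map Fin.valEmbedding =
      Finset.Ico (i * m) ((i + 1) * m) := by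
    ext x
    simp only [Finset.mem_map, mem_Vb, Fin.valEmbedding_apply, Finset.mem_Ico]
    constructor
    · rintro ⟨v, hv, rfl⟩
      rw [Nat.div_eq_iff hm] at hv
      constructor
      · exact hv.1
      · have := hv.2
        have h2 : (i + 1) * m = i * m + m := by ring
        omega
    · rintro ⟨h2, h3⟩
      have h4 : (i + 1) * m ≤ L * m := Nat.mul_le_mul_right m hi
      refine ⟨⟨x, by omega⟩, ?_, rfl⟩
      simp only
      rw [Nat.div_eq_iff hm]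
      have h5 : (i + 1) * m = i * m + m := by ring
      omega
  have h2 := congrArg card h1
  rw [card_map, Nat.card_Ico] at h2
  have h3 : (i + 1) * m = i * m + m := by ring
  omega

theorem waiter_wins : ∃ ε : ℝ, 0 < ε ∧ ∀ᶠ n : ℕ in atTop, WaiterWins n ⌈(1 + ε) * n⌉₊ := by
  obtain ⟨J, L, ε, hL, hε, hgain⟩ := exists_params
  refine ⟨ε, hε, ?_⟩
  have hL' : (4 : ℝ) ≤ L := by exact_mod_cast hL
  set K₀ : ℝ := (2 : ℝ) ^ (lab L (2 * J)).card * 2 ^ (lab L (2 * J)).card *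
    ((L + 1) ^ (2 * (2 * J)) + 1) with hK₀
  obtain ⟨ht, hpos, hka⟩ := tendsto_total (J := J) hL hε K₀
  have hev1 : ∀ᶠ n : ℕ in atTop, ((⌈(1 + ε) * n⌉₊ + 1 : ℕ) : ℝ) / n <
      (∑ j ∈ range J, (L.descFactorial (2 * j + 3) : ℝ) / (2 * (2 * j + 3)) *
      lb (n / L) ((1 - 3 * (1 / L : ℝ)) * ((n / L : ℕ) : ℝ) / ((⌈(1 + ε) * n⌉₊ + 1 : ℕ) : ℝ)) K₀
        (2 * j + 2)) / n := by
    obtain ⟨x, hx1, hx2⟩ := exists_between hgain
    filter_upwards [hka.eventually (gt_mem_nhds hx1), ht.eventually (lt_mem_nhds hx2)] with n h1 h2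
    exact h1.trans h2
  have hev2 : ∀ᶠ n : ℕ in atTop, ∀ k ∈ Finset.range (2 * J + 1), 0 ≤
      lb (n / L) ((1 - 3 * (1 / L : ℝ)) * ((n / L : ℕ) : ℝ) / ((⌈(1 + ε) * n⌉₊ + 1 : ℕ) : ℝ)) K₀
        k := by
    rw [eventually_all_finset]
    intro k _
    exact hpos k
  filter_upwards [hev1, hev2, eventually_ge_atTop L] with n h1 h2 h3
  have hn : 0 < n := by omega
  have hn' : (0 : ℝ) < n := by exact_mod_cast hn
  have hm : 0 < n / L := Nat.div_pos h3 (by omega)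
  have hmn : L * (n / L) ≤ n := Nat.mul_div_le n L
  rw [div_lt_div_iff_of_pos_right hn'] at h1
  have hQ : 0 < ⌈(1 + ε) * (n : ℝ)⌉₊ + 1 := Nat.succ_pos _
  have hmQ : ((n / L : ℕ) : ℝ) ≤ (1 / L : ℝ) * ((⌈(1 + ε) * (n : ℝ)⌉₊ + 1 : ℕ) : ℝ) := by
    have h4 : ((n / L : ℕ) : ℝ) ≤ (n : ℝ) / L := Nat.cast_div_le
    have h5 : (n : ℝ) ≤ ((⌈(1 + ε) * (n : ℝ)⌉₊ + 1 : ℕ) : ℝ) := by
      have h6 := Nat.le_ceil ((1 + ε) * (n : ℝ))
      push_cast
      nlinarith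
    calc ((n / L : ℕ) : ℝ) ≤ (n : ℝ) / L := h4
      _ = (1 / L : ℝ) * n := by ring
      _ ≤ _ := mul_le_mul_of_nonneg_left h5 (by positivity)
  have htot := total_ge (L := L) (J := J) (m := n / L)
    (θ := (1 - 3 * (1 / L : ℝ)) * ((n / L : ℕ) : ℝ) / ((⌈(1 + ε) * n⌉₊ + 1 : ℕ) : ℝ)) (K₀ := K₀)
    (fun k hk => h2 k (Finset.mem_range.2 (by omega)))
  have hforce := game (V := Fin n) (Q := ⌈(1 + ε) * (n : ℝ)⌉₊ + 1) (L := L) (K := 2 * J)
    (m := n / L) (blk := fun v : Fin n => v.val / (n / L)) (by omega) hQ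
    (fun i hi => card_block hm hmn hi) hmQ rfl hK₀ (h1.le.trans htot)
  exact hforce.waiterWinsFrom

end Pool.Agent.Helper3.WC
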