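import Pool.Agent.Helper3.WCSub

namespace Pool.Agent.Helper3.WC

open Finset

set_option linter.unusedSectionVars false
set_option linter.unusedVariables false

variable {V : Type*} [DecidableEq V] [Fintype V]

/-- The numerical choice of the group size. -/
lemma exists_group {Q α β D row col r : ℕ} {η : ℝ} (hη : 0 ≤ η) (hη1 : η ≤ 1)
    (hα : (α : ℝ) ≤ η * Q) (hβ : (β : ℝ) ≤ η * Q) (hrow : (row : ℝ) ≤ η * α)
    (hcol : (col : ℝ) ≤ η * β) (hr1 : 1 ≤ r) (hQ : 0 < Q)
    (hr : (r : ℝ) ≤ (1 - 3 * η) * (α * β / Q) - D) :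
    ∃ a : ℕ, r * a ≤ α - row ∧ Q ≤ a * (β - col - D) := by
  have hQ' : (0 : ℝ) < Q := by exact_mod_cast hQ
  have hr' : (1 : ℝ) ≤ r := by exact_mod_cast hr1
  have hα0 : (0 : ℝ) ≤ α := by positivity
  have hβ0 : (0 : ℝ) ≤ β := by positivity
  have hD0 : (0 : ℝ) ≤ D := by positivity
  have hηQ : η * Q ≤ Q := by
    calc η * Q ≤ 1 * Q := mul_le_mul_of_nonneg_right hη1 hQ'.le
      _ = Q := one_mul _
  have hαQ : (α : ℝ) ≤ Q := hα.trans hηQ
  have hηα : η * α ≤ α := by
    calc η * (α : ℝ) ≤ 1 * α := mul_le_mul_of_nonneg_right hη1 hα0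
      _ = α := one_mul _
  have hηβ : η * β ≤ β := by
    calc η * (β : ℝ) ≤ 1 * β := mul_le_mul_of_nonneg_right hη1 hβ0
      _ = β := one_mul _
  have hrowα : row ≤ α := by
    have : (row : ℝ) ≤ α := hrow.trans hηα
    exact_mod_cast this
  have hcolβ : col ≤ β := by
    have : (col : ℝ) ≤ β := hcol.trans hηβ
    exact_mod_cast this
  -- `r * Q ≤ (1 - 3η) α β - D Q`
  have hrQ : (r : ℝ) * Q ≤ (1 - 3 * η) * (α * β) - D * Q := by
    have := mul_le_mul_of_nonneg_right hr hQ'.le
    have h2 : ((1 - 3 * η) * (α * β / Q) - D) * (Q : ℝ) = (1 - 3 * η) * (α * β) - D * Q := by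
      field_simp
    linarith
  have hαβ : (0 : ℝ) ≤ (α : ℝ) * β := by positivity
  have hαβQ : (α : ℝ) * β ≤ β * Q := by
    rw [mul_comm]
    exact mul_le_mul_of_nonneg_left hαQ hβ0
  have hαD : (α : ℝ) * D ≤ D * Q := by
    rw [mul_comm]
    exact mul_le_mul_of_nonneg_left hαQ hD0
  have hrQ0 : 0 ≤ (r : ℝ) * Q := by positivity
  -- lower bound for `β - col - D`
  have hDβ' : (D : ℝ) ≤ (1 - η) * β := by
    have h2 : (D : ℝ) * Q ≤ ((1 - η) * β) * Q := by
      have h1 : (D : ℝ) * Q ≤ (1 - 3 * η) * (α * β) := by linarith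
      have h3 : (1 - 3 * η) * (α * β) ≤ (1 - η) * (α * β) :=
        mul_le_mul_of_nonneg_right (by linarith) hαβ
      have h4 : (1 - η) * (α * β) ≤ (1 - η) * (β * Q) :=
        mul_le_mul_of_nonneg_left hαβQ (by linarith)
      have h5 : (1 - η) * (β * Q) = ((1 - η) * β) * Q := by ring
      linarith
    exact le_of_mul_le_mul_right h2 hQ'
  have hDβ : D ≤ β - col := by
    have h4 : (D : ℝ) ≤ ((β - col : ℕ) : ℝ) := by
      rw [Nat.cast_sub hcolβ]
      linarith
    exact_mod_cast h4
  obtain ⟨b, hb⟩ : ∃ b : ℕ, b = β - col - D := ⟨_, rfl⟩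
  have hbR : (b : ℝ) = β - col - D := by
    rw [hb, Nat.cast_sub hDβ, Nat.cast_sub hcolβ]
  have hb0 : (0 : ℝ) ≤ b := by positivity
  rw [← hb]
  obtain ⟨a, ha⟩ : ∃ a : ℕ, a = (α - row) / r := ⟨_, rfl⟩
  have ha0 : r * a ≤ α - row := by
    rw [ha]
    exact Nat.mul_div_le _ _
  have ha1 : α - row < r * (a + 1) := by
    rw [ha]
    exact Nat.lt_mul_div_succ _ (by omega)
  refine ⟨a, ha0, ?_⟩
  have ha2 : (α : ℝ) - row < r * (a + 1) := by
    have : ((α - row : ℕ) : ℝ) < ((r * (a + 1) : ℕ) : ℝ) := by exact_mod_cast ha1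
    rw [Nat.cast_sub hrowα] at this
    push_cast at this
    linarith
  have key : (r : ℝ) * Q ≤ r * (a * b) := by
    have hr0 : (0 : ℝ) ≤ r := by linarith
    have h1 : ((α : ℝ) - row - r) * b ≤ (r * a) * b := by
      apply mul_le_mul_of_nonneg_right _ hb0
      linarith
    have h2 : ((1 - η) * α) * b ≤ ((α : ℝ) - row) * b := by
      apply mul_le_mul_of_nonneg_right _ hb0
      linarith
    have h3 : (r : ℝ) * b ≤ r * (η * Q) := by
      apply mul_le_mul_of_nonneg_left _ hr0
      rw [hbR]
      have : (0 : ℝ) ≤ col := by positivity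
      linarith
    have h4 : ((1 - η) * α) * ((1 - η) * β - D) ≤ ((1 - η) * α) * b := by
      apply mul_le_mul_of_nonneg_left _ (mul_nonneg (by linarith) hα0)
      rw [hbR]
      linarith
    have h5 : (1 - η) * (α * D) ≤ 1 * (α * D) :=
      mul_le_mul_of_nonneg_right (by linarith) (mul_nonneg hα0 hD0)
    -- the main inequality
    have h6 : (1 + η) * (r * Q) ≤ (1 + η) * ((1 - 3 * η) * (α * β) - D * Q) :=
      mul_le_mul_of_nonneg_left hrQ (by linarith)
    have h7 : ((1 + η) * (1 - 3 * η)) * (α * β) ≤ ((1 - η) * (1 - η)) * (α * β) := by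
      apply mul_le_mul_of_nonneg_right _ hαβ
      nlinarith
    have h8 : (0 : ℝ) ≤ η * (D * Q) := by positivity
    have e1 : ((1 - η) * α) * ((1 - η) * β - D) =
        ((1 - η) * (1 - η)) * (α * β) - (1 - η) * (α * D) := by ring
    have e2 : (1 + η) * ((1 - 3 * η) * (α * β) - D * Q) =
        ((1 + η) * (1 - 3 * η)) * (α * β) - D * Q - η * (D * Q) := by ring
    have e3 : (1 + η) * (r * Q) = (r : ℝ) * Q + r * (η * Q) := by ring
    have e4 : ((α : ℝ) - row - r) * b = ((α : ℝ) - row) * b - r * b := by ring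
    have e5 : (r : ℝ) * (a * b) = (r * a) * b := by ring
    rw [e5]
    linarith
  have key2 : (Q : ℝ) ≤ a * b := le_of_mul_le_mul_left key (by linarith)
  exact_mod_cast key2

/-- The vertices of block `i`. -/
def Vb (blk : V → ℕ) (i : ℕ) : Finset V := univ.filter (fun u => blk u = i)

@[simp] lemma mem_Vb {blk : V → ℕ} {i : ℕ} {u : V} : u ∈ Vb blk i ↔ blk u = i := by
  simp [Vb]

section step

variable {τ τ' : Type*} [DecidableEq τ] [DecidableEq τ']

/-- What has been achieved after treating the pairs of classes in `S`. -/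
def StepPost (blk : V → ℕ) (L R i j : ℕ) (U C : Finset (Sym2 V)) (f : V → τ) (g : V → τ')
    (r : τ → τ' → ℕ) (S : Finset (τ × τ')) (U' C' : Finset (Sym2 V)) : Prop :=
  ∃ M : Finset (V × V), M ⊆ Vb blk i ×ˢ Vb blk j ∧ IsMat M ∧ C' = C ∪ toEdges M ∧ U' ⊆ U ∧
    (∀ e ∈ U, e ∉ U' → ∃ u v, blk u = i ∧ blk v = j ∧ (f u, g v) ∈ S ∧ e = s(u, v) ∧
      ¬ Near C (2 * R) u v) ∧ Inv C' blk L R ∧
    (∀ p ∈ M, (f p.1, g p.2) ∈ S) ∧
    (∀ σ ρ, (σ, ρ) ∈ S → (M.filter (fun p => f p.1 = σ ∧ g p.2 = ρ)).card = r σ ρ)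

lemma step {Q L R : ℕ} {blk : V → ℕ} {i j : ℕ} (hi : i < L) (hj : j < L) (hij : i ≠ j)
    {U C : Finset (Sym2 V)} (hI : Inv C blk L R)
    (hU : ∀ u v, blk u = i → blk v = j → s(u, v) ∈ U)
    (hC : ∀ u v, blk u = i → blk v = j → s(u, v) ∉ C)
    (f : V → τ) (g : V → τ') (r : τ → τ' → ℕ)
    (hgrp : ∀ σ ∈ (Vb blk i).image f, ∀ ρ ∈ (Vb blk j).image g, 1 ≤ r σ ρ →
      ∃ a : ℕ, r σ ρ * a ≤ ((Vb blk i).filter (fun u => f u = σ)).card -
          ∑ ρ' ∈ (Vb blk j).image g, r σ ρ' ∧
        Q ≤ a * (((Vb blk j).filter (fun v => g v = ρ)).card -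
          ∑ σ' ∈ (Vb blk i).image f, r σ' ρ - (L + 1) ^ (2 * R)))
    (S : Finset (τ × τ')) (hS : S ⊆ (Vb blk i).image f ×ˢ (Vb blk j).image g) :
    Force Q (StepPost blk L R i j U C f g r S) U C := by
  classical
  induction S using Finset.induction_on with
  | empty =>
    refine Force.here _ _ ⟨∅, by simp, ⟨by simp, by simp⟩, by simp [toEdges], Subset.rfl, ?_, hI,
      by simp, by simp⟩
    intro e he he'
    exact (he' he).elim
  | insert q S hq ih =>
    obtain ⟨σ, ρ⟩ := q
    have hS' : S ⊆ (Vb blk i).image f ×ˢ (Vb blk j).image g := (subset_insert _ _).trans hS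
    have hσρ := mem_product.1 (hS (mem_insert_self (σ, ρ) S))
    refine (ih hS').bind ?_
    rintro U₁ C₁ ⟨M, hM, hMm, hC₁, hU₁, hlost, hI₁, hMS, hcnt⟩
    by_cases hr0 : r σ ρ = 0
    · -- nothing to do
      refine Force.here _ _ ⟨M, hM, hMm, hC₁, hU₁, ?_, hI₁, ?_, ?_⟩
      · intro e he he'
        obtain ⟨u, v, h1, h2, h3, h4, h5⟩ := hlost e he he'
        exact ⟨u, v, h1, h2, mem_insert_of_mem h3, h4, h5⟩
      · intro p hp
        exact mem_insert_of_mem (hMS p hp)
      · intro σ' ρ' h
        rw [mem_insert] at h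
        rcases h with h | h
        · rw [Prod.mk.injEq] at h
          obtain ⟨rfl, rfl⟩ := h
          rw [hr0, card_eq_zero, filter_eq_empty_iff]
          rintro p hp ⟨h1, h2⟩
          apply hq
          rw [← h1, ← h2]
          exact hMS p hp
        · exact hcnt σ' ρ' h
    -- the main case
    obtain ⟨a, ha1, ha2⟩ := hgrp σ hσρ.1 ρ hσρ.2 (Nat.one_le_iff_ne_zero.2 hr0)
    set Aσ := (Vb blk i).filter (fun u => f u = σ) with hAσ
    set Bρ := (Vb blk j).filter (fun v => g v = ρ) with hBρ
    set A := Aσ \ M.image Prod.fst with hA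
    set B := Bρ \ M.image Prod.snd with hB
    -- cardinalities of the matched parts
    have hrowcnt : (M.filter (fun p => f p.1 = σ)).card ≤
        ∑ ρ' ∈ (Vb blk j).image g, r σ ρ' := by
      rw [card_eq_sum_card_fiberwise (f := fun p : V × V => g p.2) (t := (Vb blk j).image g)]
      · apply sum_le_sum
        intro ρ' _
        by_cases h : (σ, ρ') ∈ S
        · rw [← hcnt σ ρ' h, filter_filter]
        · rw [filter_filter]
          have : M.filter (fun p => f p.1 = σ ∧ g p.2 = ρ') = ∅ := by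
            rw [filter_eq_empty_iff]
            rintro p hp ⟨h1, h2⟩
            apply h
            rw [← h1, ← h2]
            exact hMS p hp
          rw [this]
          simp
      · intro p hp
        have hp' := mem_of_mem_filter p hp
        exact mem_image_of_mem g (mem_product.1 (hM hp')).2
    have hcolcnt : (M.filter (fun p => g p.2 = ρ)).card + r σ ρ ≤
        ∑ σ' ∈ (Vb blk i).image f, r σ' ρ := by
      rw [card_eq_sum_card_fiberwise (f := fun p : V × V => f p.1) (t := (Vb blk i).image f)]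
      · rw [← add_sum_erase _ (fun σ' => r σ' ρ) hσρ.1,
          ← add_sum_erase _ (fun σ' => ((M.filter (fun p => g p.2 = ρ)).filter
            (fun p => f p.1 = σ')).card) hσρ.1]
        have h0 : ((M.filter (fun p => g p.2 = ρ)).filter (fun p => f p.1 = σ)).card = 0 := by
          rw [card_eq_zero, filter_filter, filter_eq_empty_iff]
          rintro p hp ⟨h1, h2⟩
          apply hq
          rw [← h1, ← h2]
          exact hMS p hp
        have h1 : ∑ σ' ∈ ((Vb blk i).image f).erase σ, ((M.filter (fun p => g p.2 = ρ)).filter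
            (fun p => f p.1 = σ')).card ≤ ∑ σ' ∈ ((Vb blk i).image f).erase σ, r σ' ρ := by
          apply sum_le_sum
          intro σ' _
          by_cases h : (σ', ρ) ∈ S
          · rw [← hcnt σ' ρ h, filter_filter]
            apply le_of_eq
            congr 1
            apply filter_congr
            intro p _
            exact and_comm
          · rw [filter_filter]
            have : M.filter (fun p => g p.2 = ρ ∧ f p.1 = σ') = ∅ := by
              rw [filter_eq_empty_iff]
              rintro p hp ⟨h1, h2⟩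
              apply h
              rw [← h1, ← h2]
              exact hMS p hp
            rw [this]
            simp
        simp only [] at h0 h1 ⊢
        omega
      · intro p hp
        have hp' := mem_of_mem_filter p hp
        exact mem_image_of_mem f (mem_product.1 (hM hp')).1
    have hAcard : Aσ.card - ∑ ρ' ∈ (Vb blk j).image g, r σ ρ' ≤ A.card := by
      have h1 : Aσ.card ≤ A.card + (M.filter (fun p => f p.1 = σ)).card := by
        have h2 : Aσ ⊆ A ∪ (M.filter (fun p => f p.1 = σ)).image Prod.fst := by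
          intro u hu
          rw [mem_union, hA, mem_sdiff]
          by_cases h : u ∈ M.image Prod.fst
          · right
            rw [mem_image] at h
            obtain ⟨p, hp, rfl⟩ := h
            refine mem_image_of_mem _ (mem_filter.2 ⟨hp, ?_⟩)
            exact (mem_filter.1 hu).2
          · exact Or.inl ⟨hu, h⟩
        exact (card_le_card h2).trans ((card_union_le _ _).trans
          (Nat.add_le_add_left card_image_le _))
      omega
    have hBcard : Bρ.card - ∑ σ' ∈ (Vb blk i).image f, r σ' ρ ≤ B.card - r σ ρ := by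
      have h1 : Bρ.card ≤ B.card + (M.filter (fun p => g p.2 = ρ)).card := by
        have h2 : Bρ ⊆ B ∪ (M.filter (fun p => g p.2 = ρ)).image Prod.snd := by
          intro u hu
          rw [mem_union, hB, mem_sdiff]
          by_cases h : u ∈ M.image Prod.snd
          · right
            rw [mem_image] at h
            obtain ⟨p, hp, rfl⟩ := h
            refine mem_image_of_mem _ (mem_filter.2 ⟨hp, ?_⟩)
            exact (mem_filter.1 hu).2
          · exact Or.inl ⟨hu, h⟩
        exact (card_le_card h2).trans ((card_union_le _ _).trans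
          (Nat.add_le_add_left card_image_le _))
      omega
    have hAi : ∀ u ∈ A, blk u = i := fun u hu =>
      mem_Vb.1 (mem_filter.1 (mem_sdiff.1 hu).1).1
    have hBj : ∀ v ∈ B, blk v = j := fun v hv =>
      mem_Vb.1 (mem_filter.1 (mem_sdiff.1 hv).1).1
    have hAf : ∀ u ∈ A, f u = σ := fun u hu => (mem_filter.1 (mem_sdiff.1 hu).1).2
    have hBg : ∀ v ∈ B, g v = ρ := fun v hv => (mem_filter.1 (mem_sdiff.1 hv).1).2
    refine (substep (Q := Q) (L := L) (R := R) (blk := blk) hi hj hij a (r σ ρ) U₁ C₁ A B hI₁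
      hAi hBj ?_ ?_ ?_ (ha1.trans hAcard) (ha2.trans ?_)).mono ?_
    · intro u hu v hv
      by_contra hcon
      obtain ⟨u', v', h1, h2, h3, h4, h5⟩ := hlost _ (hU u v (hAi u hu) (hBj v hv)) hcon
      rw [Sym2.eq_iff] at h4
      rcases h4 with ⟨rfl, rfl⟩ | ⟨rfl, rfl⟩
      · apply hq
        rw [← hAf u hu, ← hBg v hv]
        exact h3
      · exact hij ((hAi u hu).symm.trans h2)
    · intro u hu w hw hwj
      rw [hC₁, mem_union, mem_toEdges] at hw
      rcases hw with hw | ⟨u', v', h1, h2⟩
      · exact hC u w (hAi u hu) hwj hw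
      · rw [Sym2.eq_iff] at h2
        rcases h2 with ⟨rfl, rfl⟩ | ⟨rfl, rfl⟩
        · exact (mem_sdiff.1 hu).2 (mem_image_of_mem Prod.fst h1)
        · have := mem_product.1 (hM h1)
          exact hij ((hAi _ hu).symm.trans (mem_Vb.1 this.2))
    · intro v hv w hw hwi
      rw [hC₁, mem_union, mem_toEdges] at hw
      rcases hw with hw | ⟨u', v', h1, h2⟩
      · exact hC w v hwi (hBj v hv) (by rwa [Sym2.eq_swap])
      · rw [Sym2.eq_iff] at h2
        rcases h2 with ⟨rfl, rfl⟩ | ⟨rfl, rfl⟩
        · have := mem_product.1 (hM h1)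
          exact hij ((mem_Vb.1 this.1).symm.trans (hBj _ hv))
        · exact (mem_sdiff.1 hv).2 (mem_image_of_mem Prod.snd h1)
    · apply Nat.mul_le_mul_left
      omega
    · rintro U₂ C₂ ⟨N, hN, hNc, hNm, hC₂, hU₂, hlost₂, hI₂⟩
      have hNA : ∀ p ∈ N, p.1 ∈ A := fun p hp => (mem_product.1 (hN hp)).1
      have hNB : ∀ p ∈ N, p.2 ∈ B := fun p hp => (mem_product.1 (hN hp)).2
      have hMN1 : ∀ p ∈ M, ∀ q ∈ N, p.1 ≠ q.1 := by
        intro p hp q hq h
        apply (mem_sdiff.1 (hNA q hq)).2
        rw [← h]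
        exact mem_image_of_mem Prod.fst hp
      have hMN2 : ∀ p ∈ M, ∀ q ∈ N, p.2 ≠ q.2 := by
        intro p hp q hq h
        apply (mem_sdiff.1 (hNB q hq)).2
        rw [← h]
        exact mem_image_of_mem Prod.snd hp
      refine ⟨M ∪ N, ?_, ⟨?_, ?_⟩, ?_, hU₂.trans hU₁, ?_, hI₂, ?_, ?_⟩
      · apply union_subset hM
        intro p hp
        exact mem_product.2 ⟨mem_Vb.2 (hAi _ (hNA p hp)), mem_Vb.2 (hBj _ (hNB p hp))⟩
      · intro p hp q hq h
        rw [mem_union] at hp hq
        rcases hp with hp | hp <;> rcases hq with hq | hq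
        · exact hMm.1 p hp q hq h
        · exact (hMN1 p hp q hq h).elim
        · exact (hMN1 q hq p hp h.symm).elim
        · exact hNm.1 p hp q hq h
      · intro p hp q hq h
        rw [mem_union] at hp hq
        rcases hp with hp | hp <;> rcases hq with hq | hq
        · exact hMm.2 p hp q hq h
        · exact (hMN2 p hp q hq h).elim
        · exact (hMN2 q hq p hp h.symm).elim
        · exact hNm.2 p hp q hq h
      · rw [hC₂, hC₁]
        ext e
        simp only [toEdges, mem_union, mem_image]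
        constructor
        · rintro ((h | ⟨p, hp, h⟩) | ⟨p, hp, h⟩)
          · exact Or.inl h
          · exact Or.inr ⟨p, Or.inl hp, h⟩
          · exact Or.inr ⟨p, Or.inr hp, h⟩
        · rintro (h | ⟨p, hp | hp, h⟩)
          · exact Or.inl (Or.inl h)
          · exact Or.inl (Or.inr ⟨p, hp, h⟩)
          · exact Or.inr ⟨p, hp, h⟩
      · intro e he he'
        by_cases h : e ∈ U₁
        · obtain ⟨u, hu, v, hv, h1, h2⟩ := hlost₂ e h he'
          refine ⟨u, v, hAi u hu, hBj v hv, ?_, h1, ?_⟩
          · rw [hAf u hu, hBg v hv]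
            exact mem_insert_self _ _
          · intro h3
            apply h2
            rw [hC₁]
            exact h3.mono subset_union_left
        · obtain ⟨u, v, h1, h2, h3, h4, h5⟩ := hlost e he h
          exact ⟨u, v, h1, h2, mem_insert_of_mem h3, h4, h5⟩
      · intro p hp
        rw [mem_union] at hp
        rcases hp with hp | hp
        · exact mem_insert_of_mem (hMS p hp)
        · rw [hAf _ (hNA p hp), hBg _ (hNB p hp)]
          exact mem_insert_self _ _
      · intro σ' ρ' h
        rw [mem_insert] at h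
        rw [filter_union]
        rcases h with h | h
        · rw [Prod.mk.injEq] at h
          obtain ⟨rfl, rfl⟩ := h
          have h1 : M.filter (fun p => f p.1 = σ' ∧ g p.2 = ρ') = ∅ := by
            rw [filter_eq_empty_iff]
            rintro p hp ⟨h1, h2⟩
            apply hq
            rw [← h1, ← h2]
            exact hMS p hp
          have h2 : N.filter (fun p => f p.1 = σ' ∧ g p.2 = ρ') = N := by
            rw [filter_eq_self]
            intro p hp
            exact ⟨hAf _ (hNA p hp), hBg _ (hNB p hp)⟩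
          rw [h1, h2, empty_union, hNc]
        · have h2 : N.filter (fun p => f p.1 = σ' ∧ g p.2 = ρ') = ∅ := by
            rw [filter_eq_empty_iff]
            rintro p hp ⟨h1, h2⟩
            apply hq
            rw [hAf _ (hNA p hp)] at h1
            rw [hBg _ (hNB p hp)] at h2
            rw [h1, h2]
            exact h
          rw [h2, union_empty]
          exact hcnt σ' ρ' h

end step

end Pool.Agent.Helper3.WC
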