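import Pool.Agent.Helper3.WCInv

namespace Pool.Agent.Helper3.WC

open Finset

set_option linter.unusedSectionVars false
set_option linter.unusedVariables false

variable {V : Type*} [DecidableEq V] [Fintype V]

/-- `M` is a set of ordered pairs no two of which share a first or a second coordinate. -/
def IsMat (M : Finset (V × V)) : Prop :=
  (∀ p ∈ M, ∀ q ∈ M, p.1 = q.1 → p = q) ∧ (∀ p ∈ M, ∀ q ∈ M, p.2 = q.2 → p = q)

/-- The unordered pairs of `M`. -/
def toEdges (M : Finset (V × V)) : Finset (Sym2 V) := M.image (fun p => s(p.1, p.2))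

lemma mem_toEdges {M : Finset (V × V)} {e : Sym2 V} :
    e ∈ toEdges M ↔ ∃ u v, (u, v) ∈ M ∧ s(u, v) = e := by
  simp [toEdges]

lemma toEdges_insert {M : Finset (V × V)} {u v : V} :
    toEdges (insert (u, v) M) = insert s(u, v) (toEdges M) := by
  simp [toEdges, image_insert]

/-- What one sub-step achieves: Client claims a matching `M` of `r` pairs of `A × B`, and all
pairs lost from `U` are pairs of `A × B` at distance more than `2R`. -/
def SubPost (blk : V → ℕ) (L R : ℕ) (U C : Finset (Sym2 V)) (A B : Finset V) (r : ℕ)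
    (U' C' : Finset (Sym2 V)) : Prop :=
  ∃ M : Finset (V × V), M ⊆ A ×ˢ B ∧ M.card = r ∧ IsMat M ∧ C' = C ∪ toEdges M ∧ U' ⊆ U ∧
    (∀ e ∈ U, e ∉ U' → ∃ u ∈ A, ∃ v ∈ B, e = s(u, v) ∧ ¬ Near C (2 * R) u v) ∧ Inv C' blk L R

lemma substep {Q L R : ℕ} {blk : V → ℕ} {i j : ℕ} (hi : i < L) (hj : j < L) (hij : i ≠ j)
    (a : ℕ) : ∀ (r : ℕ) (U C : Finset (Sym2 V)) (A B : Finset V),
    Inv C blk L R → (∀ u ∈ A, blk u = i) → (∀ v ∈ B, blk v = j) →
    (∀ u ∈ A, ∀ v ∈ B, s(u, v) ∈ U) →
    (∀ u ∈ A, ∀ w, s(u, w) ∈ C → blk w ≠ j) →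
    (∀ v ∈ B, ∀ w, s(v, w) ∈ C → blk w ≠ i) →
    r * a ≤ A.card → Q ≤ a * (B.card - r - (L + 1) ^ (2 * R)) →
    Force Q (SubPost blk L R U C A B r) U C := by
  classical
  intro r
  induction r with
  | zero =>
    intro U C A B hI hA hB hU hAj hBi hra hQ
    refine Force.here _ _ ⟨∅, by simp, by simp, ⟨by simp, by simp⟩, by simp [toEdges], Subset.rfl, ?_, hI⟩
    intro e he he'
    exact (he' he).elim
  | succ r ih =>
    intro U C A B hI hA hB hU hAj hBi hra hQ
    set D := (L + 1) ^ (2 * R) with hD
    have ha : a ≤ A.card := by nlinarith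
    obtain ⟨A₁, hA₁, hA₁c⟩ := exists_subset_card_eq ha
    set X : Finset (V × V) := (A₁ ×ˢ B).filter (fun p => ¬ Near C (2 * R) p.1 p.2) with hX
    have hXcard : Q ≤ X.card := by
      have h1 : X.card = ∑ u ∈ A₁, (B.filter (fun v => ¬ Near C (2 * R) u v)).card := by
        rw [hX, card_filter, sum_product]
        apply sum_congr rfl
        intro u _
        rw [card_filter]
      have h2 : ∀ u ∈ A₁, B.card - (r + 1) - D ≤
          (B.filter (fun v => ¬ Near C (2 * R) u v)).card := by
        intro u _
        have h3 : B.card ≤ (B.filter (fun v => ¬ Near C (2 * R) u v)).card +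
            (ball C (2 * R) u).card := by
          have h4 : B ⊆ B.filter (fun v => ¬ Near C (2 * R) u v) ∪ ball C (2 * R) u := by
            intro v hv
            rw [mem_union, mem_filter, mem_ball]
            by_cases h : Near C (2 * R) u v
            · exact Or.inr h
            · exact Or.inl ⟨hv, h⟩
          exact (card_le_card h4).trans (card_union_le _ _)
        have h5 := hI.card_ball_le (2 * R) u
        rw [← hD] at h5
        omega
      calc Q ≤ a * (B.card - (r + 1) - D) := hQ
        _ = ∑ u ∈ A₁, (B.card - (r + 1) - D) := by rw [sum_const, hA₁c, smul_eq_mul]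
        _ ≤ ∑ u ∈ A₁, (B.filter (fun v => ¬ Near C (2 * R) u v)).card := sum_le_sum h2
        _ = X.card := h1.symm
    have hinj : Set.InjOn (fun p : V × V => s(p.1, p.2)) (X : Set (V × V)) := by
      intro p hp q hq hpq
      simp only [hX, coe_filter, mem_product] at hp hq
      have hp' := hp.1
      have hq' := hq.1
      simp only at hpq
      rw [Sym2.eq_iff] at hpq
      rcases hpq with h | h
      · exact Prod.ext h.1 h.2
      · exfalso
        apply hij
        rw [← hA p.1 (hA₁ hp'.1), h.1, hB q.2 hq'.2]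
    have hXcard' : Q ≤ (toEdges X).card := by
      rw [toEdges, card_image_of_injOn hinj]
      exact hXcard
    obtain ⟨O, hO, hOc⟩ := exists_subset_card_eq hXcard'
    have hO' : ∀ e ∈ O, ∃ u ∈ A₁, ∃ v ∈ B, e = s(u, v) ∧ ¬ Near C (2 * R) u v := by
      intro e he
      have := hO he
      rw [mem_toEdges] at this
      obtain ⟨u, v, huv, rfl⟩ := this
      rw [hX, mem_filter, mem_product] at huv
      exact ⟨u, huv.1.1, v, huv.1.2, rfl, huv.2⟩
    have hOU : O ⊆ U := by
      intro e he
      obtain ⟨u, hu, v, hv, rfl, _⟩ := hO' e he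
      exact hU u (hA₁ hu) v hv
    refine Force.step U C O hOU hOc ?_
    intro e he
    obtain ⟨u, hu, v, hv, rfl, hfar⟩ := hO' e he
    have hu' := hA₁ hu
    have hblku := hA u hu'
    have hblkv := hB v hv
    have hI' : Inv (insert s(u, v) C) blk L R := by
      apply hI.insert (by rw [hblku]; exact hi) (by rw [hblkv]; exact hj)
        (by rw [hblku, hblkv]; exact hij)
      · intro w hw
        rw [hblkv]
        exact hAj u hu' w hw
      · intro w hw
        rw [hblku]
        exact hBi v hv w hw
      · exact hfar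
    have hBpos : 0 < B.card := card_pos.2 ⟨v, hv⟩
    refine (ih (U \ O) (insert s(u, v) C) (A \ A₁) (B.erase v) hI' ?_ ?_ ?_ ?_ ?_ ?_ ?_).mono ?_
    · intro x hx
      exact hA x (mem_sdiff.1 hx).1
    · intro x hx
      exact hB x (mem_of_mem_erase hx)
    · intro x hx y hy
      rw [mem_sdiff] at hx
      have hy' := mem_of_mem_erase hy
      rw [mem_sdiff]
      refine ⟨hU x hx.1 y hy', fun hxy => ?_⟩
      obtain ⟨u', hu1, v', hv1, heq, _⟩ := hO' _ hxy
      rw [Sym2.eq_iff] at heq
      rcases heq with ⟨rfl, rfl⟩ | ⟨rfl, rfl⟩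
      · exact hx.2 hu1
      · exact hij ((hA x hx.1).symm.trans (hB x hv1))
    · intro x hx w hw
      rw [mem_sdiff] at hx
      rw [mem_insert, Sym2.eq_iff] at hw
      rcases hw with (⟨rfl, rfl⟩ | ⟨rfl, rfl⟩) | hw
      · exact (hx.2 hu).elim
      · exact (hij ((hA x hx.1).symm.trans hblkv)).elim
      · exact hAj x hx.1 w hw
    · intro y hy w hw
      have hy' := mem_of_mem_erase hy
      rw [mem_insert, Sym2.eq_iff] at hw
      rcases hw with (⟨rfl, rfl⟩ | ⟨rfl, rfl⟩) | hw
      · exact (hij (hblku.symm.trans (hB y hy'))).elim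
      · exact (ne_of_mem_erase hy rfl).elim
      · exact hBi y hy' w hw
    · rw [card_sdiff_of_subset hA₁, hA₁c]
      have : (r + 1) * a = r * a + a := by ring
      omega
    · rw [card_erase_of_mem hv]
      have : B.card - 1 - r - (L + 1) ^ (2 * R) = B.card - (r + 1) - D := by
        rw [hD]; omega
      rw [this]
      exact hQ
    · rintro U' C' ⟨M, hM, hMc, hMm, hC', hU', hlost, hInv⟩
      have huvM : (u, v) ∉ M := by
        intro h
        have := hM h
        rw [mem_product] at this
        exact (mem_sdiff.1 this.1).2 hu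
      refine ⟨insert (u, v) M, ?_, ?_, ⟨?_, ?_⟩, ?_, ?_, ?_, hInv⟩
      · intro p hp
        rw [mem_insert] at hp
        rcases hp with rfl | hp
        · exact mem_product.2 ⟨hu', hv⟩
        · have := hM hp
          rw [mem_product] at this ⊢
          exact ⟨(mem_sdiff.1 this.1).1, mem_of_mem_erase this.2⟩
      · rw [card_insert_of_notMem huvM, hMc]
      · intro p hp q hq hpq
        rw [mem_insert] at hp hq
        rcases hp with rfl | hp <;> rcases hq with rfl | hq
        · rfl
        · exfalso
          have := mem_product.1 (hM hq)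
          have h2 : u = q.1 := hpq
          rw [← h2] at this
          exact (mem_sdiff.1 this.1).2 hu
        · exfalso
          have := mem_product.1 (hM hp)
          have h2 : p.1 = u := hpq
          rw [h2] at this
          exact (mem_sdiff.1 this.1).2 hu
        · exact hMm.1 p hp q hq hpq
      · intro p hp q hq hpq
        rw [mem_insert] at hp hq
        rcases hp with rfl | hp <;> rcases hq with rfl | hq
        · rfl
        · exfalso
          have := mem_product.1 (hM hq)
          have h2 : v = q.2 := hpq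
          rw [← h2] at this
          exact ne_of_mem_erase this.2 rfl
        · exfalso
          have := mem_product.1 (hM hp)
          have h2 : p.2 = v := hpq
          rw [h2] at this
          exact ne_of_mem_erase this.2 rfl
        · exact hMm.2 p hp q hq hpq
      · rw [hC', toEdges_insert]
        ext e
        simp only [mem_union, mem_insert]
        tauto
      · exact hU'.trans sdiff_subset
      · intro e he he'
        by_cases heO : e ∈ O
        · obtain ⟨u', hu1, v', hv1, heq, hf⟩ := hO' e heO
          exact ⟨u', hA₁ hu1, v', hv1, heq, hf⟩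
        · obtain ⟨u', hu1, v', hv1, heq, hf⟩ := hlost e (mem_sdiff.2 ⟨he, heO⟩) he'
          exact ⟨u', (mem_sdiff.1 hu1).1, v', mem_of_mem_erase hv1, heq,
            fun h => hf (h.mono (subset_insert _ _))⟩

end Pool.Agent.Helper3.WC
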