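import Pool.Agent.Helper3.WCGame

namespace Pool.Agent.Helper3.WC

open Finset

set_option linter.unusedSectionVars false
set_option linter.unusedVariables false

variable {V : Type*} [DecidableEq V]

/-- Labelled walks: `Lw C blk s u v` says that some walk from `u` to `v` along the pairs in `C`
visits vertices whose blocks are, in order, the entries of `s`. -/
def Lw (C : Finset (Sym2 V)) (blk : V → ℕ) : List ℕ → V → V → Prop
  | [], _, _ => False
  | [i], u, v => u = v ∧ blk u = i
  | i :: j :: s, u, v => blk u = i ∧ ∃ w, s(u, w) ∈ C ∧ Lw C blk (j :: s) w v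

/-- `Near C k u v`: there is a walk of at most `k` steps from `u` to `v` along `C`. -/
def Near (C : Finset (Sym2 V)) : ℕ → V → V → Prop
  | 0, u, v => u = v
  | k + 1, u, v => Near C k u v ∨ ∃ w, Near C k u w ∧ s(w, v) ∈ C

section near

variable {C C' : Finset (Sym2 V)}

lemma Near.refl (k : ℕ) (u : V) : Near C k u u := by
  induction k with
  | zero => rfl
  | succ k ih => exact Or.inl ih

lemma Near.mono (h : C ⊆ C') {k : ℕ} {u v : V} (hn : Near C k u v) : Near C' k u v := by
  induction k generalizing v with
  | zero => exact hn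
  | succ k ih =>
    rcases hn with hn | ⟨w, hw, he⟩
    · exact Or.inl (ih hn)
    · exact Or.inr ⟨w, ih hw, h he⟩

lemma Near.succ {k : ℕ} {u v : V} (hn : Near C k u v) : Near C (k + 1) u v := Or.inl hn

lemma Near.le {k l : ℕ} (hkl : k ≤ l) {u v : V} (hn : Near C k u v) : Near C l u v := by
  induction hkl with
  | refl => exact hn
  | step _ ih => exact ih.succ

lemma Near.trans {k l : ℕ} {u v w : V} (h1 : Near C k u v) (h2 : Near C l v w) :
    Near C (k + l) u w := by
  induction l generalizing w with
  | zero =>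
    have : v = w := h2
    subst this
    exact h1
  | succ l ih =>
    rcases h2 with h2 | ⟨z, hz, he⟩
    · exact Or.inl (ih h2)
    · exact Or.inr ⟨z, ih hz, he⟩

lemma Near.edge {u v : V} (h : s(u, v) ∈ C) : Near C 1 u v := Or.inr ⟨u, rfl, h⟩

lemma Near.symm {k : ℕ} {u v : V} (h : Near C k u v) : Near C k v u := by
  induction k generalizing v with
  | zero => exact Eq.symm h
  | succ k ih =>
    rcases h with h | ⟨w, hw, he⟩
    · exact (ih h).succ
    · have h1 : Near C 1 v w := Near.edge (by rwa [Sym2.eq_swap])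
      have := h1.trans (ih hw)
      rwa [add_comm] at this

/-- The ball of radius `k`. -/
noncomputable def ball [Fintype V] (C : Finset (Sym2 V)) (k : ℕ) (u : V) : Finset V := by
  classical exact univ.filter (fun v => Near C k u v)

lemma mem_ball [Fintype V] {k : ℕ} {u v : V} : v ∈ ball C k u ↔ Near C k u v := by
  simp [ball]

lemma card_ball_le [Fintype V] {Δ : ℕ}
    (hΔ : ∀ u, (univ.filter (fun v => s(u, v) ∈ C)).card ≤ Δ) (k : ℕ) (u : V) :
    (ball C k u).card ≤ (Δ + 1) ^ k := by
  classical
  induction k with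
  | zero =>
    have : ball C 0 u = {u} := by
      ext v
      rw [mem_ball, mem_singleton]
      exact eq_comm
    simp [this]
  | succ k ih =>
    have hsub : ball C (k + 1) u ⊆
        ball C k u ∪ (ball C k u).biUnion (fun w => univ.filter (fun v => s(w, v) ∈ C)) := by
      intro v hv
      rw [mem_ball] at hv
      rw [mem_union, mem_biUnion]
      rcases hv with hv | ⟨w, hw, he⟩
      · exact Or.inl (mem_ball.2 hv)
      · exact Or.inr ⟨w, mem_ball.2 hw, by simpa using he⟩
    calc (ball C (k + 1) u).card ≤ _ := card_le_card hsub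
      _ ≤ (ball C k u).card + ((ball C k u).biUnion
            (fun w => univ.filter (fun v => s(w, v) ∈ C))).card := card_union_le _ _
      _ ≤ (ball C k u).card + (ball C k u).card * Δ := by
          gcongr
          exact card_biUnion_le_card_mul _ _ _ (fun w _ => hΔ w)
      _ = (ball C k u).card * (Δ + 1) := by ring
      _ ≤ (Δ + 1) ^ k * (Δ + 1) := by gcongr
      _ = (Δ + 1) ^ (k + 1) := by ring

end near

section lw

variable {C C' : Finset (Sym2 V)} {blk : V → ℕ}

@[simp] lemma lw_nil {u v : V} : Lw C blk [] u v ↔ False := Iff.rfl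

@[simp] lemma lw_singleton {i : ℕ} {u v : V} : Lw C blk [i] u v ↔ u = v ∧ blk u = i := Iff.rfl

@[simp] lemma lw_cons_cons {i j : ℕ} {s : List ℕ} {u v : V} :
    Lw C blk (i :: j :: s) u v ↔ blk u = i ∧ ∃ w, s(u, w) ∈ C ∧ Lw C blk (j :: s) w v := Iff.rfl

lemma Lw.ne_nil {s : List ℕ} {u v : V} (h : Lw C blk s u v) : s ≠ [] := by
  rintro rfl
  exact h

lemma Lw.head {i : ℕ} {s : List ℕ} {u v : V} (h : Lw C blk (i :: s) u v) : blk u = i := by
  cases s with
  | nil => exact h.2
  | cons j s => exact h.1

lemma Lw.mono (h : C ⊆ C') {s : List ℕ} {u v : V} (hw : Lw C blk s u v) : Lw C' blk s u v := by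
  induction s generalizing u with
  | nil => exact hw
  | cons i s ih =>
    cases s with
    | nil => exact hw
    | cons j s =>
      obtain ⟨h1, w, h2, h3⟩ := hw
      exact ⟨h1, w, h h2, ih h3⟩

lemma Lw.head_mem {s : List ℕ} {u v : V} (h : Lw C blk s u v) : blk u ∈ s := by
  cases s with
  | nil => exact h.elim
  | cons i s => rw [h.head]; exact List.mem_cons_self

/-- Concatenation of labelled walks. -/
lemma Lw.append {s t : List ℕ} {u x y v : V} (h1 : Lw C blk s u x) (he : s(x, y) ∈ C)
    (h2 : Lw C blk t y v) : Lw C blk (s ++ t) u v := by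
  induction s generalizing u with
  | nil => exact h1.elim
  | cons i s ih =>
    cases s with
    | nil =>
      obtain ⟨rfl, hi⟩ := h1
      cases t with
      | nil => exact h2.elim
      | cons j t => exact ⟨hi, y, he, h2⟩
    | cons j s =>
      obtain ⟨h3, w, h4, h5⟩ := h1
      exact ⟨h3, w, h4, ih h5⟩

lemma Lw.reverse {s : List ℕ} {u v : V} (h : Lw C blk s u v) : Lw C blk s.reverse v u := by
  induction s generalizing u with
  | nil => exact h.elim
  | cons i s ih =>
    cases s with
    | nil =>
      obtain ⟨rfl, hi⟩ := h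
      exact ⟨rfl, hi⟩
    | cons j s =>
      obtain ⟨h3, w, h4, h5⟩ := h
      rw [List.reverse_cons]
      exact (ih h5).append (by rwa [Sym2.eq_swap]) ⟨rfl, h3⟩

lemma Lw.last_mem {s : List ℕ} {u v : V} (h : Lw C blk s u v) : blk v ∈ s := by
  have := h.reverse.head_mem
  simpa using this

lemma Lw.near {s : List ℕ} {u v : V} (h : Lw C blk s u v) : Near C (s.length - 1) u v := by
  induction s generalizing u with
  | nil => exact h.elim
  | cons i s ih =>
    cases s with
    | nil =>
      obtain ⟨rfl, hi⟩ := h
      exact Near.refl _ _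
    | cons j s =>
      obtain ⟨h3, w, h4, h5⟩ := h
      have := (Near.edge h4).trans (ih h5)
      simpa [add_comm] using this

/-- If every vertex has at most one neighbour in each block, labelled walks are deterministic. -/
lemma Lw.det (one : ∀ u v w, s(u, v) ∈ C → s(u, w) ∈ C → blk v = blk w → v = w)
    {s : List ℕ} {u v v' : V} (h : Lw C blk s u v) (h' : Lw C blk s u v') : v = v' := by
  induction s generalizing u with
  | nil => exact h.elim
  | cons i s ih =>
    cases s with
    | nil => exact h.1.symm.trans h'.1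
    | cons j s =>
      obtain ⟨h3, w, h4, h5⟩ := h
      obtain ⟨h3', w', h4', h5'⟩ := h'
      have : w = w' := one u w w' h4 h4' (h5.head.trans h5'.head.symm)
      subst this
      exact ih h5 h5'

lemma Lw.det' (one : ∀ u v w, s(u, v) ∈ C → s(u, w) ∈ C → blk v = blk w → v = w)
    {s : List ℕ} {u u' v : V} (h : Lw C blk s u v) (h' : Lw C blk s u' v) : u = u' :=
  Lw.det one h.reverse h'.reverse

/-- A labelled walk with distinct labels after adding one edge. -/
lemma Lw.of_insert {x y : V} {s : List ℕ} {u v : V} (hnd : s.Nodup)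
    (h : Lw (insert s(x, y) C) blk s u v) :
    Lw C blk s u v ∨
    (∃ s₁ s₂, s = s₁ ++ s₂ ∧ Lw C blk s₁ u x ∧ Lw C blk s₂ y v) ∨
    (∃ s₁ s₂, s = s₁ ++ s₂ ∧ Lw C blk s₁ u y ∧ Lw C blk s₂ x v) := by
  induction s generalizing u with
  | nil => exact h.elim
  | cons i s ih =>
    cases s with
    | nil => exact Or.inl h
    | cons j s =>
      obtain ⟨h3, w, h4, h5⟩ := h
      have hnd' : (j :: s).Nodup := (List.nodup_cons.1 hnd).2
      have hi : i ∉ j :: s := (List.nodup_cons.1 hnd).1
      rw [mem_insert] at h4
      rcases h4 with h4 | h4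
      · -- the first edge is the new one
        have key : Lw C blk (j :: s) w v := by
          rcases ih hnd' h5 with h6 | ⟨s₁, s₂, hs, h6, h7⟩ | ⟨s₁, s₂, hs, h6, h7⟩
          · exact h6
          · exfalso
            rw [Sym2.eq_iff] at h4
            rcases h4 with ⟨rfl, rfl⟩ | ⟨rfl, rfl⟩
            · apply hi
              rw [hs, ← h3]
              exact List.mem_append_left _ h6.last_mem
            · apply hi
              rw [hs, ← h3]
              exact List.mem_append_right _ h7.head_mem
          · exfalso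
            rw [Sym2.eq_iff] at h4
            rcases h4 with ⟨rfl, rfl⟩ | ⟨rfl, rfl⟩
            · apply hi
              rw [hs, ← h3]
              exact List.mem_append_right _ h7.head_mem
            · apply hi
              rw [hs, ← h3]
              exact List.mem_append_left _ h6.last_mem
        rw [Sym2.eq_iff] at h4
        rcases h4 with ⟨rfl, rfl⟩ | ⟨rfl, rfl⟩
        · exact Or.inr (Or.inl ⟨[i], j :: s, rfl, ⟨rfl, h3⟩, key⟩)
        · exact Or.inr (Or.inr ⟨[i], j :: s, rfl, ⟨rfl, h3⟩, key⟩)
      · rcases ih hnd' h5 with h6 | ⟨s₁, s₂, hs, h6, h7⟩ | ⟨s₁, s₂, hs, h6, h7⟩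
        · exact Or.inl ⟨h3, w, h4, h6⟩
        · refine Or.inr (Or.inl ⟨i :: s₁, s₂, by rw [hs]; rfl, ?_, h7⟩)
          cases s₁ with
          | nil => exact h6.elim
          | cons k s₁ => exact ⟨h3, w, h4, h6⟩
        · refine Or.inr (Or.inr ⟨i :: s₁, s₂, by rw [hs]; rfl, ?_, h7⟩)
          cases s₁ with
          | nil => exact h6.elim
          | cons k s₁ => exact ⟨h3, w, h4, h6⟩

/-- A labelled walk with distinct labels gives a path of Client's graph. -/
lemma Lw.exists_path (ne : ∀ u v, s(u, v) ∈ C → blk u ≠ blk v) {s : List ℕ} {u v : V}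
    (h : Lw C blk s u v) (hnd : s.Nodup) :
    ∃ p : (clientGraph C).Walk u v, p.IsPath ∧ p.length + 1 = s.length ∧
      p.support.map blk = s := by
  induction s generalizing u with
  | nil => exact h.elim
  | cons i s ih =>
    cases s with
    | nil =>
      obtain ⟨rfl, hi⟩ := h
      exact ⟨SimpleGraph.Walk.nil, by simp, by simp, by simp [hi]⟩
    | cons j s =>
      obtain ⟨h3, w, h4, h5⟩ := h
      obtain ⟨p, hp, hl, hs⟩ := ih h5 (List.nodup_cons.1 hnd).2
      have hadj : (clientGraph C).Adj u w := by
        simp only [clientGraph, SimpleGraph.fromEdgeSet_adj]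
        exact ⟨by exact_mod_cast h4, fun h => ne u w h4 (by rw [h])⟩
      refine ⟨SimpleGraph.Walk.cons hadj p, ?_, ?_, ?_⟩
      · rw [SimpleGraph.Walk.cons_isPath_iff]
        refine ⟨hp, fun hu => (List.nodup_cons.1 hnd).1 ?_⟩
        rw [← hs, ← h3]
        exact List.mem_map_of_mem hu
      · simp only [SimpleGraph.Walk.length_cons, List.length_cons] at hl ⊢
        omega
      · rw [SimpleGraph.Walk.support_cons, List.map_cons, hs, h3]

end lw

end Pool.Agent.Helper3.WC
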